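import Pool.Agent.W_4a2a4a_h31.Tp

/-! # Bridge to the complete types of Mathlib -/

namespace Pool.Agent.W_4a2a4a_h31

open FirstOrder FirstOrder.Language Cardinal

variable {L : FirstOrder.Language.{0, 0}} {α β : Type} {T : L.Theory}

/-- Bridge to Mathlib's complete types. -/
def ofCT (p : T.CompleteType α) : Set (L.Formula α) := {φ | Formula.equivSentence φ ∈ p}

theorem ofCT_typeOf {M : Type} [L.Structure M] [Nonempty M] [M ⊨ T] (v : α → M) :
    ofCT (T.typeOf v) = tp (L := L) v := by
  ext φ
  exact Theory.CompleteType.formula_mem_typeOf (T := T) (v := v)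

/-- PROOF: `exists_modelType_is_realized_in` and a countable elementary substructure containing
the tuple. -/
theorem isTp_ofCT (hL : L.card ≤ ℵ₀) [Countable α] (p : T.CompleteType α) :
    IsTp T (ofCT p) := by
  obtain ⟨M, v, hv⟩ := Theory.exists_modelType_is_realized_in T p
  obtain ⟨M', v', h'⟩ := exists_countable_of_model (T := T) hL M v
  refine ⟨M', v', ?_⟩
  rw [← hv, ofCT_typeOf]
  ext φ
  exact h' φ

theorem ofCT_injective : Function.Injective (ofCT : T.CompleteType α → Set (L.Formula α)) := by
  intro p q h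
  refine SetLike.ext fun σ => ?_
  have : Formula.equivSentence.symm σ ∈ ofCT p ↔ Formula.equivSentence.symm σ ∈ ofCT q := by
    rw [h]
  simpa [ofCT] using this

theorem exists_ofCT {s : Set (L.Formula α)} (h : IsTp T s) :
    ∃ p : T.CompleteType α, ofCT p = s := by
  obtain ⟨M, v, rfl⟩ := h
  exact ⟨T.typeOf v, ofCT_typeOf v⟩

end Pool.Agent.W_4a2a4a_h31
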