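import Mathlib

/-! # MP_4a2a4a_lc: hierarchy of first-order formulas, bounded theories

All languages have their symbols in `Type`. -/

namespace Pool.Agent.W_4a2a4a_h31

open FirstOrder FirstOrder.Language Cardinal

variable {L : FirstOrder.Language.{0, 0}} {α : Type}

/-- `IsLv true k φ` says that `φ` is a `∀_k`-formula and `IsLv false k φ` says that `φ` is an
`∃_k`-formula: quantifier-free formulas are the `∀_0`- and the `∃_0`-formulas, a
`∀_(k+1)`-formula is a (possibly empty) block of universal quantifiers in front of an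
`∃_k`-formula, an `∃_(k+1)`-formula is a block of existential quantifiers in front of a
`∀_k`-formula. -/
inductive IsLv : Bool → ℕ → ∀ {n : ℕ}, L.BoundedFormula α n → Prop
  | qf {b : Bool} {n : ℕ} {φ : L.BoundedFormula α n} (h : φ.IsQF) : IsLv b 0 φ
  | step {b : Bool} {k n : ℕ} {φ : L.BoundedFormula α n} (h : IsLv (!b) k φ) : IsLv b (k + 1) φ
  | all {k n : ℕ} {φ : L.BoundedFormula α (n + 1)} (h : IsLv true (k + 1) φ) :
      IsLv true (k + 1) φ.all
  | ex {k n : ℕ} {φ : L.BoundedFormula α (n + 1)} (h : IsLv false (k + 1) φ) :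
      IsLv false (k + 1) φ.ex

/-- `T` is `∀_k`-axiomatizable: some set `A` of `∀_k`-sentences has the same models as `T`. -/
def PiAx (k : ℕ) (T : L.Theory) : Prop :=
  ∃ A : L.Theory, (∀ σ ∈ A, IsLv true k σ) ∧
    ∀ (M : Type) [L.Structure M] [Nonempty M], M ⊨ A ↔ M ⊨ T

/-- `T` is bounded: it is `∀_k`-axiomatizable for some `k`. -/
def Bounded (T : L.Theory) : Prop :=
  ∃ k, PiAx k T

/-- The countable models of `T`. -/
structure CM (T : L.Theory) where
  /-- the universe -/
  carrier : Type
  [str : L.Structure carrier]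
  [ne : Nonempty carrier]
  [ct : Countable carrier]
  [models : carrier ⊨ T]

attribute [instance] CM.str CM.ne CM.ct CM.models

instance (T : L.Theory) : CoeSort (CM T) Type := ⟨CM.carrier⟩

end Pool.Agent.W_4a2a4a_h31
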