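import Pool.Agent.W_4a2a4a_h31.SemB

/-! # Elementarity of level `k + 1` -/

namespace Pool.Agent.W_4a2a4a_h31

open FirstOrder FirstOrder.Language Cardinal

variable {L : FirstOrder.Language.{0, 0}} {α β : Type} {T : L.Theory}

/-- PROOF: let `σ ∈ A` with `IsLv true (k+2) σ` and suppose `E ⊭ σ`. Then `σ.not` is
`Lv false (k+2)`, by `Lv.split` it is `∃ w, ψ w` with `Lv true (k+1) ψ`; take `w` in `E`; as
`ψ.not` is `Lv false (k+1)`, `ψ` is true in `B` at `e ∘ w`, so `B ⊭ σ`. -/
theorem models_of_elem {k : ℕ} (hT : PiAx (k + 2) T) {E B : Type} [L.Structure E]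
    [L.Structure B] [Nonempty E] [Nonempty B] [B ⊨ T] (e : E → B)
    (he : ∀ (β : Type) [Finite β] (φ : L.Formula β) (w : β → E), Lv false (k + 1) φ →
      (φ.Realize (e ∘ w) ↔ φ.Realize w)) : E ⊨ T := by
  obtain ⟨A, hA, hM⟩ := hT
  rw [← hM E, Theory.model_iff]
  intro σ hσ
  by_contra hn
  have hB : B ⊨ σ := ((Theory.model_iff _).1 ((hM B).2 inferInstance)) σ hσ
  have h1 : Lv false (k + 2) (Formula.not σ) := by
    have := Lv.not (hA σ hσ).lv
    simpa using this
  obtain ⟨m, ψ, hψ, hsp⟩ := Lv.split (k := k + 1) h1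
  have h2 : (Formula.not σ).Realize (default : Empty → E) := hn
  obtain ⟨w, hw⟩ := (hsp E default).1 h2
  have h3 : Lv false (k + 1) (Formula.not ψ) := by
    have := Lv.not hψ
    simpa using this
  let r : Empty ⊕ Fin m → Fin m := Sum.elim Empty.elim id
  have h4 : Lv false (k + 1) (Formula.relabel r (Formula.not ψ)) := Lv.relabel h3 r
  have h5 := he (Fin m) _ w h4
  rw [Formula.realize_relabel, Formula.realize_relabel] at h5
  have h6 : w ∘ r = Sum.elim (default : Empty → E) w := by
    funext x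
    rcases x with x | x
    · exact x.elim
    · rfl
  have h7 : (e ∘ w) ∘ r = Sum.elim (default : Empty → B) (e ∘ w) := by
    funext x
    rcases x with x | x
    · exact x.elim
    · rfl
  rw [h6, h7] at h5
  have h8 : ψ.Realize (Sum.elim (default : Empty → B) (e ∘ w)) := by
    by_contra h
    exact (h5.1 h) hw
  exact (hsp B default).2 ⟨_, h8⟩ hB

/-- Elementarity from a Tarski-Vaught condition.
PROOF: induction on `j ≤ k + 1` : for `Lv false j φ`; `j = 0` is `Lv.realize_embedding_zero`;
`j + 1`: `Lv.split`, the induction hypothesis for `ψ.not`. -/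
theorem elem_of_tv {k : ℕ} {E B : Type} [L.Structure E] [L.Structure B] [Nonempty E] [Nonempty B]
    (e : E ↪[L] B)
    (tv : ∀ (β : Type) [Finite β] (m : ℕ) (ψ : L.Formula (β ⊕ Fin m)) (u : β → E) (w : Fin m → B),
      Lv false (k + 1) ψ → ψ.Realize (Sum.elim (e ∘ u) w) →
        ∃ w' : Fin m → E, ψ.Realize (Sum.elim (e ∘ u) (e ∘ w')))
    (β : Type) [Finite β] (φ : L.Formula β) (w : β → E) (h : Lv false (k + 1) φ) :
    φ.Realize (e ∘ w) ↔ φ.Realize w := by
  have key : ∀ j, j ≤ k + 1 → ∀ (β : Type) [Finite β] (φ : L.Formula β) (w : β → E),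
      Lv false j φ → (φ.Realize (e ∘ w) ↔ φ.Realize w) := by
    intro j
    induction j with
    | zero => exact fun _ β _ φ w h => h.realize_embedding_zero e w
    | succ j ih =>
      intro hj β _ φ w h
      obtain ⟨m, ψ, hψ, hsp⟩ := h.split
      have hn : Lv false j (Formula.not ψ) := by
        have := Lv.not hψ
        simpa using this
      have hψe : ∀ w' : Fin m → E, ψ.Realize (Sum.elim (e ∘ w) (e ∘ w')) ↔
          ψ.Realize (Sum.elim w w') := by
        intro w'
        have h1 := ih (by omega) (β ⊕ Fin m) _ (Sum.elim w w') hn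
        have h2 : e ∘ Sum.elim w w' = Sum.elim (e ∘ w) (e ∘ w') := by
          funext x
          rcases x with x | x <;> rfl
        rw [h2] at h1
        exact not_iff_not.1 h1
      rw [hsp B, hsp E]
      constructor
      · rintro ⟨w', hw'⟩
        have h3 : Lv false (k + 1) ψ := (Lv.step (b := false) hψ).mono hj
        obtain ⟨w'', h4⟩ := tv β m ψ w w' h3 hw'
        exact ⟨w'', (hψe w'').1 h4⟩
      · rintro ⟨w', hw'⟩
        exact ⟨e ∘ w', (hψe w').2 hw'⟩
  exact key (k + 1) le_rfl β φ w h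

end Pool.Agent.W_4a2a4a_h31
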