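import Pool.Agent.W_4a2a4a_h31.SemB

/-! # Projection of an existential formula -/

namespace Pool.Agent.W_4a2a4a_h31

open FirstOrder FirstOrder.Language Cardinal

variable {L : FirstOrder.Language.{0, 0}} {α β : Type}

/-- Projection: the formula `∃ z (γ(z) ∧ x = z ∘ f)`.
PROOF: `exists_support` gives a finite `s ⊆ ι`; put `t = s ∪ range f` (a finset), relabel `γ` along
`ι → Option t` (identity on `t`, `none` elsewhere), take the conjunction with
`∧_b x_b = z_(f b)` (`exists_conj`) and quantify with `Lv.iExs`. -/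
theorem exists_proj {ι : Type} [Nonempty ι] [Finite β] (k : ℕ) (γ : L.Formula ι)
    (hγ : Lv false (k + 1) γ) (f : β → ι) :
    ∃ χ : L.Formula β, Lv false (k + 1) χ ∧
      ∀ (M : Type) [L.Structure M] [Nonempty M] (u : β → M),
        χ.Realize u ↔ ∃ z : ι → M, γ.Realize z ∧ z ∘ f = u := by
  classical
  obtain ⟨s, hs⟩ := exists_support γ
  haveI := Fintype.ofFinite β
  let t : Finset ι := s ∪ Finset.univ.image f
  let g : ι → β ⊕ Option t := fun i => Sum.inr (if h : i ∈ t then some ⟨i, h⟩ else none)
  let q : β → L.Formula (β ⊕ Option t) := fun b =>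
    Term.equal (Term.var (Sum.inl b)) (Term.var (g (f b)))
  obtain ⟨δ, hδ1, hδ2⟩ := exists_conj (L := L) (b := false) (k := k + 1)
    (Finset.univ.image q) (by
      intro φ hφ
      obtain ⟨b, _, rfl⟩ := Finset.mem_image.1 hφ
      exact Lv.qf (BoundedFormula.IsAtomic.equal _ _).isQF)
  refine ⟨((γ.relabel g : L.Formula (β ⊕ Option t)) ⊓ δ).iExs (Option t),
    Lv.iExs ((hγ.relabel g).inf hδ1), fun M _ _ u => ?_⟩
  rw [Formula.realize_iExs]
  have hδ : ∀ (w : Option t → M), δ.Realize (Sum.elim u w) ↔
      ∀ b, u b = Sum.elim u w (g (f b)) := by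
    intro w
    rw [hδ2 M]
    constructor
    · intro h b
      have := h (q b) (Finset.mem_image_of_mem _ (Finset.mem_univ _))
      rw [Formula.realize_equal] at this
      simpa using this
    · intro h φ hφ
      obtain ⟨b, _, rfl⟩ := Finset.mem_image.1 hφ
      rw [Formula.realize_equal]
      simpa using h b
  constructor
  · rintro ⟨w, hw⟩
    rw [Formula.realize_inf, Formula.realize_relabel, hδ] at hw
    exact ⟨_, hw.1, funext fun b => (hw.2 b).symm⟩
  · rintro ⟨z, hz, rfl⟩
    refine ⟨fun o => o.elim (Classical.arbitrary M) fun i => z i.1, ?_⟩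
    rw [Formula.realize_inf, Formula.realize_relabel, hδ]
    have hg : ∀ i ∈ t, Sum.elim (z ∘ f)
        (fun o : Option t => o.elim (Classical.arbitrary M) fun i => z i.1) (g i) = z i := by
      intro i hi
      simp only [g, Sum.elim_inr, dif_pos hi, Option.elim_some]
    refine ⟨(hs M _ z fun a ha => ?_).2 hz, fun b => ?_⟩
    · exact hg a (Finset.mem_union_left _ ha)
    · exact (hg _ (Finset.mem_union_right _ (Finset.mem_image_of_mem _ (Finset.mem_univ _)))).symm

end Pool.Agent.W_4a2a4a_h31
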