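import Pool.Agent.W_4a2a4a_h31.Gen
import Pool.Agent.W_4a2a4a_h31.Elem
import Pool.Agent.W_4a2a4a_h31.Proj

/-! # Models all of whose tuples have maximal existential types -/

namespace Pool.Agent.W_4a2a4a_h31

open FirstOrder FirstOrder.Language Cardinal

variable {L : FirstOrder.Language.{0, 0}} {α β : Type} {T : L.Theory}

/-- The `∃_(k+1)`-part of `p` is maximal among the types of `T`. -/
def Mx (T : L.Theory) (k : ℕ) (p : Set (L.Formula α)) : Prop :=
  ∀ q : Set (L.Formula α), IsTp T q → (∀ φ ∈ p, Lv false (k + 1) φ → φ ∈ q) →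
    ∀ φ ∈ q, Lv false (k + 1) φ → φ ∈ p

/-- PROOF: take `B`, `v` from `exists_generic`, `E` = range of `v`, a substructure of `B` (for a
function symbol `F` and indices `i` apply the generic property to the quantifier-free formula
`F(x_i) = y`; the second alternative is impossible because `B` realises `γ` and the value).  The
Tarski-Vaught condition of `elem_of_tv` is the generic property for the relabelled formula. So
`E ⊨ T` by `models_of_elem`.  Let `w : β → E`, `w = v ∘ f`, `q` a type with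
`tp w ∩ ∃_(k+1) ⊆ q`, `φ ∈ q` of level `∃_(k+1)`.  Apply the generic property with `m = 0` to
`φ.relabel f`: in the first alternative `φ ∈ tp w` (elementarity).  Otherwise we get `γ`; by
`exists_proj` the formula `∃ z (γ(z) ∧ x = z ∘ f)` is in `tp w`, so in `q = tp u`, so there is `z`
in the model of `u` with `γ(z)`, `z ∘ f = u`, and `φ(z ∘ f)`; contradiction. -/
theorem exists_ec (hL : L.card ≤ ℵ₀) [Finite α] {k : ℕ} (hT : PiAx (k + 2) T)
    (Δ : Set (L.Formula α)) (hΔ : ∀ φ ∈ Δ, Lv false (k + 1) φ) (hs : Sat T Δ) :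
    ∃ E : CM T, (∀ (β : Type) [Finite β] (w : β → E), Mx T k (tp (L := L) w)) ∧
      ∃ v : α → E, ∀ φ ∈ Δ, φ.Realize v := by
  classical
  have : Countable α := Finite.to_countable
  obtain ⟨B, v, hv, hgen⟩ := exists_generic hL k Δ hΔ hs
  have tv0 : ∀ (m : ℕ) (ψ : L.Formula ((α ⊕ ℕ) ⊕ Fin m)), Lv false (k + 1) ψ →
      ∀ w : Fin m → B, ψ.Realize (Sum.elim v w) →
        ∃ g : Fin m → α ⊕ ℕ, ψ.Realize (Sum.elim v (v ∘ g)) := by
    intro m ψ hψ w hw
    rcases hgen m ψ hψ with h | ⟨γ, _, hγ, hno⟩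
    · exact h
    · exact absurd hw (hno B v hγ w)
  let S : L.Substructure B :=
    { carrier := Set.range v
      fun_mem := by
        intro n f x hx
        choose i hi using hx
        let ψ : L.Formula ((α ⊕ ℕ) ⊕ Fin 1) :=
          (Term.func f (fun j => Term.var (Sum.inl (i j)))).equal (Term.var (Sum.inr 0))
        have hψ : Lv false (k + 1) ψ := Lv.qf (BoundedFormula.IsAtomic.equal _ _).isQF
        have hr : ∀ z : Fin 1 → B, ψ.Realize (Sum.elim v z) ↔ Structure.funMap f x = z 0 := by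
          intro z
          rw [Formula.realize_equal]
          have : (fun j => v (i j)) = x := funext hi
          simp [this]
        obtain ⟨g, hg⟩ := tv0 1 ψ hψ (fun _ => Structure.funMap f x) ((hr _).2 rfl)
        exact ⟨g 0, ((hr _).1 hg).symm⟩ }
  have hSmem : ∀ x : S, ∃ i, v i = (x : B) := fun x => x.2
  have hne : Nonempty S := ⟨⟨v (Sum.inr 0), ⟨_, rfl⟩⟩⟩
  have hct : Countable S := (Set.countable_range v).to_subtype
  have helem : ∀ (β : Type) [Finite β] (φ : L.Formula β) (w : β → S), Lv false (k + 1) φ →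
      (φ.Realize (S.subtype ∘ w) ↔ φ.Realize w) := by
    intro β _ φ w hφ
    refine elem_of_tv (k := k) S.subtype ?_ β φ w hφ
    intro β _ m ψ u w hψ hw
    choose f hf using fun b => hSmem (u b)
    have hrel : ∀ z : Fin m → B,
        (ψ.relabel (Sum.map f id) : L.Formula ((α ⊕ ℕ) ⊕ Fin m)).Realize (Sum.elim v z) ↔
          ψ.Realize (Sum.elim (S.subtype ∘ u) z) := by
      intro z
      rw [Formula.realize_relabel]
      have : Sum.elim v z ∘ Sum.map f id = Sum.elim (S.subtype ∘ u) z := by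
        funext x
        rcases x with x | x
        · exact hf x
        · rfl
      rw [this]
    obtain ⟨g, hg⟩ := tv0 m _ (hψ.relabel (Sum.map f id)) w ((hrel w).2 hw)
    exact ⟨fun j => ⟨v (g j), ⟨_, rfl⟩⟩, (hrel _).1 hg⟩
  have hmod : S ⊨ T := models_of_elem hT (E := S) (B := B) S.subtype helem
  refine ⟨{ carrier := S }, ?_, ?_⟩
  · intro β _ w
    change β → S at w
    rintro q ⟨M, u, rfl⟩ hsub φ hφ hlv
    rw [mem_tp] at hφ ⊢
    choose f hf using fun b => hSmem (w b)
    have hvf : v ∘ f = S.subtype ∘ w := funext hf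
    have hrel : ∀ (N : CM T) (z : α ⊕ ℕ → N) (t : Fin 0 → N),
        (φ.relabel (Sum.inl ∘ f) : L.Formula ((α ⊕ ℕ) ⊕ Fin 0)).Realize (Sum.elim z t) ↔
          φ.Realize (z ∘ f) := by
      intro N z t
      rw [Formula.realize_relabel]
      rfl
    rcases hgen 0 _ (hlv.relabel (Sum.inl ∘ f)) with ⟨g, hg⟩ | ⟨γ, hγ, hγv, hno⟩
    · have h1 := (hrel B v _).1 hg
      rw [hvf] at h1
      exact (helem β φ w hlv).1 h1
    · exfalso
      obtain ⟨χ, hχ, hχr⟩ := exists_proj k γ hγ f
      have h1 : χ.Realize (S.subtype ∘ w) := (hχr B _).2 ⟨v, hγv, hvf⟩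
      have h2 : χ ∈ tp (L := L) w := (helem β χ w hχ).1 h1
      have h3 : χ ∈ tp (L := L) u := hsub χ h2 hχ
      obtain ⟨z, hz, hzu⟩ := (hχr M u).1 h3
      refine hno M z hz Fin.elim0 ((hrel M z _).2 ?_)
      rw [hzu]
      exact hφ
  · refine ⟨fun a => (⟨v (Sum.inl a), ⟨_, rfl⟩⟩ : S), fun φ hφ => ?_⟩
    exact (helem α φ _ (hΔ φ hφ)).1 (hv φ hφ)

end Pool.Agent.W_4a2a4a_h31
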