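import Pool.Agent.W_4a2a4a_h31.Bridge

/-! # Isolated points of sets of types when there are countably many types -/

namespace Pool.Agent.W_4a2a4a_h31

open FirstOrder FirstOrder.Language Cardinal

variable {L : FirstOrder.Language.{0, 0}} {α β : Type} {T : L.Theory}

theorem IsTp.mem_inf {p : Set (L.Formula α)} (h : IsTp T p) (φ ψ : L.Formula α) :
    φ ⊓ ψ ∈ p ↔ φ ∈ p ∧ ψ ∈ p := by
  obtain ⟨M, v, rfl⟩ := h
  simp only [mem_tp, Formula.realize_inf]

/-- In a small theory every nonempty set `X` of types has a relatively isolated point.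
Elementary proof: otherwise one constructs, given an enumeration `e` of the types, a decreasing
sequence of formulas `c n`, each in a member of `X`, with `c (n + 1) ∉ e n`; by compactness it is
contained in some type, a contradiction. -/
theorem exists_isolated (hL : L.card ≤ ℵ₀) [Countable α]
    (hc : {s : Set (L.Formula α) | IsTp T s}.Countable) {X : Set (Set (L.Formula α))}
    (hX : ∀ s ∈ X, IsTp T s) (hne : X.Nonempty) :
    ∃ s ∈ X, ∃ φ ∈ s, ∀ q ∈ X, φ ∈ q → q = s := by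
  classical
  by_contra hcon
  push Not at hcon
  obtain ⟨s₀, hs₀⟩ := hne
  obtain ⟨e, he⟩ := hc.exists_eq_range ⟨s₀, hX s₀ hs₀⟩
  have heT : ∀ n, IsTp T (e n) := fun n => by
    have : e n ∈ {s : Set (L.Formula α) | IsTp T s} := by rw [he]; exact ⟨n, rfl⟩
    exact this
  have step : ∀ (n : ℕ) (c : {φ : L.Formula α // ∃ s ∈ X, φ ∈ s}),
      ∃ c' : {φ : L.Formula α // ∃ s ∈ X, φ ∈ s},
        (∀ (M : CM T) (v : α → M), c'.1.Realize v → c.1.Realize v) ∧ c'.1 ∉ e n := by
    rintro n ⟨φ, s, hs, hφ⟩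
    obtain ⟨q, hq, hφq, hne⟩ := hcon s hs φ hφ
    have h1 : ¬ s ⊆ q := fun h => hne ((hX s hs).eq_of_subset (hX q hq) h).symm
    obtain ⟨χ, hχs, hχq⟩ := Set.not_subset.1 h1
    by_cases hχ : χ ∈ e n
    · refine ⟨⟨φ ⊓ χ.not, q, hq, ((hX q hq).mem_inf _ _).2
        ⟨hφq, ((hX q hq).not_mem χ).2 hχq⟩⟩, fun M v hv => ?_, fun h => ?_⟩
      · exact (Formula.realize_inf.1 hv).1
      · exact ((heT n).not_mem χ).1 (((heT n).mem_inf _ _).1 h).2 hχ
    · refine ⟨⟨φ ⊓ χ, s, hs, ((hX s hs).mem_inf _ _).2 ⟨hφ, hχs⟩⟩, fun M v hv => ?_,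
        fun h => ?_⟩
      · exact (Formula.realize_inf.1 hv).1
      · exact hχ (((heT n).mem_inf _ _).1 h).2
  choose f hf1 hf2 using step
  have htop : (⊤ : L.Formula α) ∈ s₀ := by
    obtain ⟨M, v, rfl⟩ := hX s₀ hs₀
    simp [Formula.Realize]
  let c : ℕ → {φ : L.Formula α // ∃ s ∈ X, φ ∈ s} := fun n =>
    Nat.rec ⟨⊤, s₀, hs₀, htop⟩ (fun n c => f n c) n
  have hcs : ∀ n, c (n + 1) = f n (c n) := fun n => rfl
  have hmono : ∀ (m n : ℕ), m ≤ n → ∀ (M : CM T) (v : α → M), (c n).1.Realize v →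
      (c m).1.Realize v := by
    intro m n hmn
    induction n, hmn using Nat.le_induction with
    | base => exact fun M v h => h
    | succ n hmn ih =>
      intro M v h
      rw [hcs] at h
      exact ih M v (hf1 n (c n) M v h)
  have hsat : Sat T (Set.range fun n => (c n).1) := by
    apply sat_of_fin hL
    intro Γ₀ hΓ
    have h1 : ∀ φ : Γ₀, ∃ n, (c n).1 = φ.1 := fun φ => hΓ φ.2
    choose g hg using h1
    obtain ⟨s, hs, hcs'⟩ := (c (Finset.univ.sup g)).2
    obtain ⟨M, v, hv⟩ := hX s hs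
    refine ⟨M, v, fun φ hφ => ?_⟩
    have h2 : (c (Finset.univ.sup g)).1.Realize v := by
      have : (c (Finset.univ.sup g)).1 ∈ tp (L := L) v := by rw [hv]; exact hcs'
      exact this
    have h3 := hmono (g ⟨φ, hφ⟩) _ (Finset.le_sup (f := g) (Finset.mem_univ _)) M v h2
    rwa [hg ⟨φ, hφ⟩] at h3
  obtain ⟨M, v, hv⟩ := hsat
  have h4 : tp (L := L) v ∈ {s : Set (L.Formula α) | IsTp T s} := ⟨M, v, rfl⟩
  rw [he] at h4
  obtain ⟨n, hn⟩ := h4
  apply hf2 n (c n)
  rw [hn]
  have := hv (c (n + 1)).1 ⟨n + 1, rfl⟩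
  rwa [hcs] at this

/-- Finitely many countable models (up to isomorphism). -/
def FinMod (T : L.Theory) (t : ℕ) (N : Fin t → CM T) : Prop :=
  ∀ M : CM T, ∃ i, Nonempty (M ≃[L] N i)

/-- PROOF: every type over `T` is realised in one of the countably many `N i`, by one of the
countably many tuples (`tp_equiv`). -/
theorem FinMod.countable [Finite α] {t : ℕ} {N : Fin t → CM T} (h : FinMod T t N) :
    {s : Set (L.Formula α) | IsTp T s}.Countable := by
  refine Set.Countable.mono (s₂ := ⋃ i : Fin t, Set.range (fun v : α → N i => tp (L := L) v))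
    ?_ (Set.countable_iUnion fun i => Set.countable_range _)
  rintro s ⟨M, v, rfl⟩
  obtain ⟨i, ⟨e⟩⟩ := h M
  exact Set.mem_iUnion.2 ⟨i, e ∘ v, tp_equiv e v⟩

end Pool.Agent.W_4a2a4a_h31
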