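import Pool.Agent.W_4a2a4a_h31.EC
import Pool.Agent.W_4a2a4a_h31.Iso

/-! # Types realised in existentially closed models of all levels -/

namespace Pool.Agent.W_4a2a4a_h31

open FirstOrder FirstOrder.Language Cardinal

variable {L : FirstOrder.Language.{0, 0}} {α β : Type} {T : L.Theory}

/-- `p` is determined over `T` by its `∃_c`-formulas. -/
def EAx (T : L.Theory) (c : ℕ) (p : Set (L.Formula α)) : Prop :=
  ∀ r : Set (L.Formula α), IsTp T r → (∀ φ ∈ p, Lv false c φ → φ ∈ r) → r = p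

/-- `p` is determined over `T` by its `∀_c`-formulas. -/
def AAx (T : L.Theory) (c : ℕ) (p : Set (L.Formula α)) : Prop :=
  ∀ r : Set (L.Formula α), IsTp T r → (∀ φ ∈ p, Lv true c φ → φ ∈ r) → r = p

/-- `p` is realised in `M`. -/
def Rlz (M : Type) [L.Structure M] (p : Set (L.Formula α)) : Prop :=
  ∃ v : α → M, tp (L := L) v = p

/-- All finite tuples of `E` have maximal `∃_(k+1)`-types. -/
def IsEC (T : L.Theory) (k : ℕ) (E : CM T) : Prop :=
  ∀ (β : Type) [Finite β] (w : β → E), Mx T k (tp (L := L) w)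

/-- The consequence of compactness: if every type containing the `∃_j`-part of `s` contains `ψ`
then some `ψ' ∈ s` of level `∃_j` implies `ψ`.
PROOF: `{χ ∈ s | Lv false j χ} ∪ {ψ.not}` is not `Sat`; `sat_of_fin`, `exists_conj`. -/
theorem exists_implies (hL : L.card ≤ ℵ₀) [Countable α] {j : ℕ} {s : Set (L.Formula α)}
    (hs : IsTp T s) {ψ : L.Formula α}
    (h : ∀ q, IsTp T q → (∀ χ ∈ s, Lv false j χ → χ ∈ q) → ψ ∈ q) :
    ∃ ψ' ∈ s, Lv false j ψ' ∧ ∀ (M : CM T) (v : α → M), ψ'.Realize v → ψ.Realize v := by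
  classical
  by_contra hcon
  push Not at hcon
  have hsat : Sat T ({χ | χ ∈ s ∧ Lv false j χ} ∪ {ψ.not}) := by
    apply sat_union_of_fin hL
    intro Γ₀ hΓ
    obtain ⟨δ, hδ1, hδ2⟩ := exists_conj (b := false) (k := j) Γ₀ (fun φ hφ => (hΓ hφ).2)
    have hδs : δ ∈ s := by
      obtain ⟨M, v, rfl⟩ := hs
      exact (hδ2 M v).2 fun φ hφ => (hΓ hφ).1
    obtain ⟨M, v, hv1, hv2⟩ := hcon δ hδs hδ1
    refine ⟨M, v, ?_⟩
    rintro φ (hφ | hφ)
    · exact (hδ2 M v).1 hv1 φ hφ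
    · rw [Set.mem_singleton_iff.1 hφ]
      exact hv2
  obtain ⟨M, v, hv⟩ := hsat
  have h1 := h (tp v) ⟨M, v, rfl⟩ fun χ hχ hl => hv χ (Or.inl ⟨hχ, hl⟩)
  exact hv ψ.not (Or.inr rfl) h1

/-- A type over `p` containing `ψ` which is realised in every countable model realising `p`.
PROOF: `exists_isolated` for the set `U` of types `s` (in the variables `α ⊕ Fin m`) with
restriction `p` containing `ψ`: isolated by `θ`; the formula `∃ w (θ ∧ ψ)` is in `p`. -/
theorem exists_iso_ext (hL : L.card ≤ ℵ₀) [Finite α] {m : ℕ}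
    (hc : {s : Set (L.Formula (α ⊕ Fin m)) | IsTp T s}.Countable)
    {p : Set (L.Formula α)} {M : CM T} {v : α → M} (hv : tp (L := L) v = p)
    {ψ : L.Formula (α ⊕ Fin m)} {w : Fin m → M} (hw : ψ.Realize (Sum.elim v w)) :
    ∃ s : Set (L.Formula (α ⊕ Fin m)), IsTp T s ∧ ψ ∈ s ∧
      ∀ (E : CM T) (u : α → E), tp (L := L) u = p →
        ∃ w' : Fin m → E, tp (L := L) (Sum.elim u w') = s := by
  obtain ⟨s, ⟨⟨M1, v1, w1, hv1, hs1⟩, hψ⟩, θ, hθ, hiso⟩ := exists_isolated hL hc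
    (X := {s | (∃ (M : CM T) (v : α → M) (w : Fin m → M), tp (L := L) v = p ∧
      tp (L := L) (Sum.elim v w) = s) ∧ ψ ∈ s})
    (by
      rintro s ⟨⟨M, v, w, _, hs⟩, _⟩
      exact ⟨M, Sum.elim v w, hs⟩)
    ⟨tp (L := L) (Sum.elim v w), ⟨M, v, w, hv, rfl⟩, hw⟩
  have hrel : ∀ (E : CM T) (u : α → E), ((θ ⊓ ψ).iExs (Fin m)).Realize u ↔
      ∃ w' : Fin m → E, θ.Realize (Sum.elim u w') ∧ ψ.Realize (Sum.elim u w') := by
    intro E u
    rw [Formula.realize_iExs]
    simp only [Formula.realize_inf]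
  have hmem : ((θ ⊓ ψ).iExs (Fin m)) ∈ p := by
    rw [← hv1]
    refine (hrel M1 v1).2 ⟨w1, ?_, ?_⟩
    · have : θ ∈ tp (L := L) (Sum.elim v1 w1) := by rw [hs1]; exact hθ
      exact this
    · have : ψ ∈ tp (L := L) (Sum.elim v1 w1) := by rw [hs1]; exact hψ
      exact this
  refine ⟨s, ⟨M1, Sum.elim v1 w1, hs1⟩, hψ, fun E u hu => ?_⟩
  rw [← hu] at hmem
  obtain ⟨w', h1, h2⟩ := (hrel E u).1 hmem
  exact ⟨w', hiso _ ⟨⟨E, u, w', hu, rfl⟩, h2⟩ h1⟩

/-- Fact 4.  PROOF.  By induction on `j ≥ c + 1` : if `φ ∈ p` is of level `∃_j` then `φ ∈ r`.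
For `j = c + 1` this is the hypothesis.  Step: `φ` of level `∃_(j+1)`; by `Lv.split`
`φ ↔ ∃ w ψ`, `Lv true j ψ`.  Let `s` be from `exists_iso_ext`.  Apply the hypothesis `hE` with
`k = j - 1`: `E` realises `p`, hence `s`, so `Mx T (j-1) s`.  Every type `q` containing the
`∃_j`-part of `s` contains `ψ` (otherwise `ψ.not ∈ q` has level `∃_j`, so is in `s`).  By
`exists_implies` get `ψ' ∈ s`; `∃ w ψ'` has level `∃_j` and is in `p`, so in `r`, hence `φ ∈ r`.
Finally every formula has some level (`exists_lv`) so `p ⊆ r` and `p = r`. -/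
theorem fact4 (hL : L.card ≤ ℵ₀) [Finite α]
    (hc : ∀ m : ℕ, {s : Set (L.Formula (α ⊕ Fin m)) | IsTp T s}.Countable)
    {p : Set (L.Formula α)} (hp : IsTp T p) {c : ℕ}
    (hE : ∀ k, c ≤ k → ∃ E : CM T, IsEC T k E ∧ Rlz E p) : EAx T (c + 1) p := by
  intro r hr hpr
  have key : ∀ j, c + 1 ≤ j → ∀ φ ∈ p, Lv false j φ → φ ∈ r := by
    intro j hj
    induction j, hj using Nat.le_induction with
    | base => exact hpr
    | succ j hj ih =>
      intro φ hφ hl
      obtain ⟨m, ψ, hψ, hsp⟩ := hl.split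
      obtain ⟨M, v, hv⟩ := hp
      have hφv : φ.Realize v := by
        have : φ ∈ tp (L := L) v := by rw [hv]; exact hφ
        exact this
      obtain ⟨w, hw⟩ := (hsp M v).1 hφv
      obtain ⟨s, hs1, hs2, hs3⟩ := exists_iso_ext hL (hc m) hv hw
      obtain ⟨j', rfl⟩ : ∃ j', j = j' + 1 := ⟨j - 1, by omega⟩
      obtain ⟨E, hE1, u, hu⟩ := hE j' (by omega)
      obtain ⟨w', hw'⟩ := hs3 E u hu
      have hmx : Mx T j' s := by
        rw [← hw']
        exact hE1 _ _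
      obtain ⟨ψ', hψ's, hψ'l, hψ'i⟩ := exists_implies hL hs1 (j := j' + 1) (ψ := ψ) (by
        intro q hq hsq
        by_contra hn
        have h1 : ψ.not ∈ q := (hq.not_mem ψ).2 hn
        have h2 : Lv false (j' + 1) (BoundedFormula.not ψ) := by
          have := Lv.not hψ
          simpa using this
        have h3 := hmx q hq hsq _ h1 h2
        exact (hs1.not_mem ψ).1 h3 hs2)
      have h4 : Lv false (j' + 1) (ψ'.iExs (Fin m)) := Lv.iExs hψ'l
      have h5 : (ψ'.iExs (Fin m)) ∈ p := by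
        rw [← hu]
        show (ψ'.iExs (Fin m)).Realize u
        rw [Formula.realize_iExs]
        refine ⟨w', ?_⟩
        have : ψ' ∈ tp (L := L) (Sum.elim u w') := by rw [hw']; exact hψ's
        exact this
      have h6 := ih _ h5 h4
      obtain ⟨M2, v2, rfl⟩ := hr
      have h7 : (ψ'.iExs (Fin m)).Realize v2 := h6
      rw [Formula.realize_iExs] at h7
      obtain ⟨w2, hw2⟩ := h7
      exact (hsp M2 v2).2 ⟨w2, hψ'i M2 _ hw2⟩
  refine (hp.eq_of_subset hr fun φ hφ => ?_).symm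
  obtain ⟨k, hk⟩ := exists_lv φ
  exact key (max k (c + 1)) (le_max_right _ _) φ hφ ((hk false).mono (le_max_left _ _))

end Pool.Agent.W_4a2a4a_h31
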