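import Pool.Agent.W_4a2a4a_h31.Main

/-! # The final theorem -/

namespace Pool.Agent.W_4a2a4a_h31

open FirstOrder FirstOrder.Language Cardinal

variable {L : FirstOrder.Language.{0, 0}} {α β : Type} {T : L.Theory}

/-- Axioms of `T` are in `p`. -/
theorem onSentence_mem {A : L.Theory}
    (hM : ∀ (M : Type) [L.Structure M] [Nonempty M], M ⊨ A ↔ M ⊨ T)
    (p : T.CompleteType α) {ψ : L.Sentence} (hψ : ψ ∈ A) :
    (L.lhomWithConstants α).onSentence ψ ∈ p := by
  obtain ⟨M, v, rfl⟩ := Theory.exists_modelType_is_realized_in T p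
  letI : (constantsOn α).Structure M := constantsOn.structure v
  have h1 : M ⊨ A := (hM M).2 inferInstance
  have h2 : M ⊨ (L.lhomWithConstants α).onSentence ψ :=
    (LHom.realize_onSentence (M := M) (L.lhomWithConstants α) ψ).2 (h1.realize_of_mem ψ hψ)
  exact h2

/-- PROOF: axioms `A'` = the sentences `σ ∈ p` with `IsLv true (K+1) σ`.  Let `M` be a model of `A'`;
take a countable elementary substructure `M₀` (as `L[[α]]`-structure).  `M₀ ⊨ A'` so the reduct
is a model of `T` (the axioms of `T` of level `m ≤ K + 1`, `IsLv.onBoundedFormula`, are in `p`) and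
the type `r` of the constants contains the `∃_K`-part of `ofCT p` (`IsLv.equivSentence`,
`IsLv.step`). So `r = ofCT p` and `M₀ ⊨ p`. -/
theorem piAx_of_eax (hL : L.card ≤ ℵ₀) [Finite α] {m K : ℕ} (hT : PiAx m T) (hmK : m ≤ K + 1)
    (p : T.CompleteType α) (h : EAx T K (ofCT p)) :
    PiAx (K + 1) (p : L[[α]].Theory) := by
  obtain ⟨A, hA, hM⟩ := hT
  refine ⟨{σ | σ ∈ p ∧ IsLv true (K + 1) σ}, fun σ hσ => hσ.2, fun M _ _ => ?_⟩
  constructor
  swap
  · intro h1
    rw [Theory.model_iff]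
    exact fun σ hσ => h1.realize_of_mem σ hσ.1
  intro h1
  letI : L.Structure M := (L.lhomWithConstants α).reduct M
  haveI : (L.lhomWithConstants α).IsExpansionOn M := LHom.isExpansionOn_reduct _ _
  have hMA : M ⊨ A := by
    rw [Theory.model_iff]
    intro ψ hψ
    have h2 := onSentence_mem hM p hψ
    have h3 : IsLv true (K + 1) ((L.lhomWithConstants α).onSentence ψ) :=
      ((hA ψ hψ).mono hmK).onBoundedFormula _
    exact (LHom.realize_onSentence (M := M) (L.lhomWithConstants α) ψ).1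
      (h1.realize_of_mem _ ⟨h2, h3⟩)
  haveI : M ⊨ T := (hM M).1 hMA
  obtain ⟨M', v', hv'⟩ := exists_countable_of_model (T := T) hL M (fun a : α => ((L.con a : L[[α]].Constants) : M))
  have hr : tp (L := L) v' = ofCT p := by
    refine h _ ⟨M', v', rfl⟩ fun φ hφ hl => ?_
    obtain ⟨χ, hχ, he⟩ := hl
    have h4 : χ ∈ ofCT p := by
      obtain ⟨M₀, v₀, h₀⟩ := isTp_ofCT hL p
      rw [← h₀] at hφ ⊢
      exact (he.formula M₀ v₀).1 hφ
    have h5 : IsLv true (K + 1) (Formula.equivSentence χ) :=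
      IsLv.step (b := true) hχ.equivSentence
    have h6 : M ⊨ Formula.equivSentence χ := h1.realize_of_mem _ ⟨h4, h5⟩
    rw [Formula.realize_equivSentence] at h6
    exact (hv' φ).2 ((he.formula M _).2 h6)
  rw [Theory.model_iff]
  intro σ hσ
  have h7 : Formula.equivSentence.symm σ ∈ ofCT p := by
    show Formula.equivSentence (Formula.equivSentence.symm σ) ∈ p
    rw [Equiv.apply_symm_apply]
    exact hσ
  rw [← hr] at h7
  exact (Formula.realize_equivSentence_symm_con M σ).1 ((hv' _).1 h7)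

theorem main (hL : L.card ≤ ℵ₀) (hT : Bounded T) {t : ℕ} {N : Fin t → CM T}
    (hN : FinMod T t N) : ∃ K, ∀ (n : ℕ) (p : T.CompleteType (Fin n)),
      PiAx K (p : L[[Fin n]].Theory) := by
  obtain ⟨m, hm⟩ := hT
  obtain ⟨K, hK⟩ := exists_uniform hL hm hN
  refine ⟨max K m + 1, fun n p => ?_⟩
  have h1 := hK n (ofCT p) (isTp_ofCT hL p) (all_bounded hL hm hN n _ (isTp_ofCT hL p))
  exact piAx_of_eax hL hm (by omega) p (h1.mono (le_max_left _ _))

end Pool.Agent.W_4a2a4a_h31
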