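import Pool.Agent.W_4a2a4a_h31.Sem

/-! # The hierarchy up to logical equivalence, second part -/

namespace Pool.Agent.W_4a2a4a_h31

open FirstOrder FirstOrder.Language Cardinal

variable {L : FirstOrder.Language.{0, 0}} {α β : Type} {b : Bool} {k l m n : ℕ}

theorem equiB_of_formula {φ ψ : L.Formula α}
    (h : ∀ (M : Type) [L.Structure M] [Nonempty M] (v : α → M), φ.Realize v ↔ ψ.Realize v) :
    EquiB φ ψ := by
  intro M _ _ v xs
  have := h M v
  simp only [Formula.Realize] at this
  rwa [Subsingleton.elim xs default]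

theorem EquiB.formula {φ ψ : L.Formula α} (h : EquiB φ ψ) (M : Type) [L.Structure M] [Nonempty M]
    (v : α → M) : φ.Realize v ↔ ψ.Realize v := h M v default

theorem Lv.relabel {φ : L.Formula α} (h : Lv b k φ) (f : α → β) :
    Lv b k (φ.relabel f : L.Formula β) := by
  obtain ⟨χ, h1, h2⟩ := h
  refine ⟨(Formula.relabel f χ : L.Formula β), h1.relabel (n := 0) (Sum.inl ∘ f), ?_⟩
  apply equiB_of_formula
  intro M _ _ v
  rw [Formula.realize_relabel, Formula.realize_relabel]
  exact h2.formula M _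

theorem Lv.iExs [Finite β] {φ : L.Formula (α ⊕ β)} (h : Lv false (k + 1) φ) :
    Lv false (k + 1) (φ.iExs β) := by
  obtain ⟨χ, h1, h2⟩ := h
  refine ⟨Formula.iExs β χ, IsLv.iExs h1, ?_⟩
  apply equiB_of_formula
  intro M _ _ v
  rw [Formula.realize_iExs, Formula.realize_iExs]
  exact exists_congr fun w => h2.formula M _

theorem IsLv.split' {K : ℕ} {φ : L.BoundedFormula α n} (h : IsLv b K φ) :
    b = false → K = k + 1 → ∃ (n' : ℕ) (hn : n ≤ n') (ψ : L.BoundedFormula α n'), IsLv true k ψ ∧
      ∀ (M : Type) [L.Structure M] [Nonempty M] (v : α → M) (xs : Fin n → M),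
        φ.Realize v xs ↔ ∃ ys : Fin n' → M, ys ∘ Fin.castLE hn = xs ∧ ψ.Realize v ys := by
  induction h with
  | qf h => intro _ hK; omega
  | @step b k' n φ h _ =>
    intro hb hK
    cases hK
    subst hb
    refine ⟨n, le_rfl, φ, h, fun M _ _ v xs => ?_⟩
    constructor
    · exact fun h => ⟨xs, rfl, h⟩
    · rintro ⟨ys, rfl, h⟩
      exact h
  | all h ih => intro hb; cases hb
  | @ex k' n χ h ih =>
    intro hb hK
    obtain ⟨n', hn, ψ, h1, h2⟩ := ih hb hK
    refine ⟨n', by omega, ψ, h1, fun M _ _ v xs => ?_⟩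
    rw [BoundedFormula.realize_ex]
    constructor
    · rintro ⟨a, ha⟩
      obtain ⟨ys, hys, h3⟩ := (h2 M v _).1 ha
      refine ⟨ys, ?_, h3⟩
      funext i
      have := congrFun hys (Fin.castSucc i)
      simp only [Function.comp_apply, Fin.snoc_castSucc] at this
      rw [← this]
      rfl
    · rintro ⟨ys, rfl, h3⟩
      refine ⟨ys (Fin.castLE hn (Fin.last n)), (h2 M v _).2 ⟨ys, ?_, h3⟩⟩
      funext i
      refine Fin.lastCases ?_ (fun i => ?_) i
      · simp
      · simp only [Function.comp_apply, Fin.snoc_castSucc]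
        rfl

/-- PROOF: for `IsLv false (k+1) (φ : L.BoundedFormula α n)` prove by induction that there are
`n' ≥ n` and `ψ : L.BoundedFormula α n'` with `IsLv true k ψ` and
`φ.Realize v xs ↔ ∃ ys : Fin n' → M, ys ∘ Fin.castLE h = xs ∧ ψ.Realize v ys`; then take
`ψ.toFormula`. -/
theorem Lv.split {φ : L.Formula α} (h : Lv false (k + 1) φ) :
    ∃ (m : ℕ) (ψ : L.Formula (α ⊕ Fin m)), Lv true k ψ ∧
      ∀ (M : Type) [L.Structure M] [Nonempty M] (v : α → M),
        φ.Realize v ↔ ∃ w : Fin m → M, ψ.Realize (Sum.elim v w) := by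
  obtain ⟨χ, h1, h2⟩ := h
  obtain ⟨n', hn, ψ, h3, h4⟩ := h1.split' (k := k) rfl rfl
  refine ⟨n', ψ.toFormula, h3.toFormula.lv, fun M _ _ v => ?_⟩
  rw [h2.formula M v]
  show χ.Realize v default ↔ _
  rw [h4 M v]
  refine exists_congr fun w => ?_
  rw [BoundedFormula.realize_toFormula, Sum.elim_comp_inl, Sum.elim_comp_inr]
  constructor
  · exact fun h => h.2
  · exact fun h => ⟨Subsingleton.elim _ _, h⟩

theorem exists_isLv_of_isPrenex {φ : L.BoundedFormula α n} (h : φ.IsPrenex) :
    ∃ k, ∀ b, IsLv b k φ := by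
  induction h with
  | of_isQF h => exact ⟨0, fun b => IsLv.qf h⟩
  | @all n φ _ ih =>
    obtain ⟨k, hk⟩ := ih
    have h1 : IsLv true (k + 1) φ.all := ((hk true).mono (Nat.le_succ k)).all
    refine ⟨k + 2, fun b => ?_⟩
    cases b with
    | true => exact h1.mono (Nat.le_succ _)
    | false => exact IsLv.step (b := false) h1
  | @ex n φ _ ih =>
    obtain ⟨k, hk⟩ := ih
    have h1 : IsLv false (k + 1) φ.ex := ((hk false).mono (Nat.le_succ k)).ex
    refine ⟨k + 2, fun b => ?_⟩
    cases b with
    | true => exact IsLv.step (b := true) h1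
    | false => exact h1.mono (Nat.le_succ _)

/-- PROOF: prenex normal form (`toPrenex_isPrenex`, `realize_toPrenex`); a prenex formula is
`IsLv b k` for some `k`. -/
theorem exists_lv (φ : L.Formula α) : ∃ k, ∀ b, Lv b k φ := by
  obtain ⟨k, hk⟩ := exists_isLv_of_isPrenex (BoundedFormula.toPrenex_isPrenex φ)
  exact ⟨k, fun b => ⟨_, hk b, fun M _ _ v xs =>
    (BoundedFormula.realize_toPrenex φ (v := v) (xs := xs)).symm⟩⟩

/-- Quantifier-free formulas are preserved in both directions by embeddings. -/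
theorem Lv.realize_embedding_zero {M N : Type} [L.Structure M] [L.Structure N] [Nonempty M]
    [Nonempty N] (e : M ↪[L] N) {φ : L.Formula α} (h : Lv b 0 φ) (v : α → M) :
    φ.Realize (e ∘ v) ↔ φ.Realize v := by
  obtain ⟨χ, h1, h2⟩ := h
  rw [h2.formula N, h2.formula M]
  have := h1.isQF.realize_embedding e (v := v) (xs := default)
  simp only [Formula.Realize]
  rw [← this]
  rw [Subsingleton.elim (e ∘ (default : Fin 0 → M)) default]

theorem exists_support_term {γ : Type} (t : L.Term (α ⊕ γ)) :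
    ∃ s : Finset α, ∀ (M : Type) [L.Structure M] (v w : α → M) (xs : γ → M),
      (∀ a ∈ s, v a = w a) → t.realize (Sum.elim v xs) = t.realize (Sum.elim w xs) := by
  classical
  induction t with
  | var x =>
    rcases x with a | i
    · exact ⟨{a}, fun M _ v w xs h => by simpa using h a (by simp)⟩
    · exact ⟨∅, fun M _ v w xs h => by simp⟩
  | func f ts ih =>
    choose s hs using ih
    refine ⟨Finset.univ.biUnion s, fun M _ v w xs h => ?_⟩
    simp only [Term.realize_func]
    congr 1
    funext i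
    exact hs i M v w xs fun a ha => h a (Finset.mem_biUnion.2 ⟨i, Finset.mem_univ _, ha⟩)

theorem exists_supportB (φ : L.BoundedFormula α n) :
    ∃ s : Finset α, ∀ (M : Type) [L.Structure M] (v w : α → M) (xs : Fin n → M),
      (∀ a ∈ s, v a = w a) → (φ.Realize v xs ↔ φ.Realize w xs) := by
  classical
  induction φ with
  | falsum => exact ⟨∅, fun M _ v w xs h => Iff.rfl⟩
  | equal t₁ t₂ =>
    obtain ⟨s1, h1⟩ := exists_support_term t₁
    obtain ⟨s2, h2⟩ := exists_support_term t₂
    refine ⟨s1 ∪ s2, fun M _ v w xs h => ?_⟩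
    simp only [BoundedFormula.Realize]
    rw [h1 M v w xs fun a ha => h a (Finset.mem_union_left _ ha),
      h2 M v w xs fun a ha => h a (Finset.mem_union_right _ ha)]
  | rel R ts =>
    choose s hs using fun i => exists_support_term (ts i)
    refine ⟨Finset.univ.biUnion s, fun M _ v w xs h => ?_⟩
    simp only [BoundedFormula.Realize]
    rw [show (fun i => (ts i).realize (Sum.elim v xs)) = fun i => (ts i).realize (Sum.elim w xs)
      from funext fun i => hs i M v w xs fun a ha =>
        h a (Finset.mem_biUnion.2 ⟨i, Finset.mem_univ _, ha⟩)]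
  | imp f1 f2 ih1 ih2 =>
    obtain ⟨s1, h1⟩ := ih1
    obtain ⟨s2, h2⟩ := ih2
    refine ⟨s1 ∪ s2, fun M _ v w xs h => ?_⟩
    rw [BoundedFormula.realize_imp, BoundedFormula.realize_imp,
      h1 M v w xs fun a ha => h a (Finset.mem_union_left _ ha),
      h2 M v w xs fun a ha => h a (Finset.mem_union_right _ ha)]
  | all f ih =>
    obtain ⟨s, hs⟩ := ih
    refine ⟨s, fun M _ v w xs h => ?_⟩
    rw [BoundedFormula.realize_all, BoundedFormula.realize_all]
    exact forall_congr' fun a => hs M v w _ h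

/-- A formula depends on finitely many variables only. -/
theorem exists_support (φ : L.Formula α) :
    ∃ s : Finset α, ∀ (M : Type) [L.Structure M] (v w : α → M),
      (∀ a ∈ s, v a = w a) → (φ.Realize v ↔ φ.Realize w) := by
  obtain ⟨s, hs⟩ := exists_supportB φ
  exact ⟨s, fun M _ v w h => hs M v w default h⟩

end Pool.Agent.W_4a2a4a_h31
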