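import Pool.Agent.W_4a2a4a_h31.Tp
import Pool.Agent.W_4a2a4a_h31.SemB

/-! # The generic model (Henkin construction) -/

namespace Pool.Agent.W_4a2a4a_h31

open FirstOrder FirstOrder.Language Cardinal

variable {L : FirstOrder.Language.{0, 0}} {α β : Type} {T : L.Theory}

/-- Compactness in two parts. -/
theorem sat_union_of_fin (hL : L.card ≤ ℵ₀) [Countable β] {Γ₁ Γ₂ : Set (L.Formula β)}
    (h : ∀ Γ₀ : Finset (L.Formula β), (Γ₀ : Set (L.Formula β)) ⊆ Γ₁ →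
      Sat T ((Γ₀ : Set (L.Formula β)) ∪ Γ₂)) : Sat T (Γ₁ ∪ Γ₂) := by
  classical
  apply sat_of_fin hL
  intro Γ₀ hΓ
  refine (h (Γ₀.filter (fun φ => φ ∈ Γ₁)) ?_).mono ?_
  · intro φ hφ
    rw [Finset.mem_coe, Finset.mem_filter] at hφ
    exact hφ.2
  · intro φ hφ
    rcases hΓ hφ with h1 | h1
    · left
      rw [Finset.mem_coe, Finset.mem_filter]
      exact ⟨hφ, h1⟩
    · right
      exact h1

/-- The conditions of the Henkin construction. -/
structure Cond (T : L.Theory) (k : ℕ) (Δ : Set (L.Formula α)) where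
  /-- the formula -/
  f : L.Formula (α ⊕ ℕ)
  lv : Lv false (k + 1) f
  sat : ∃ (M : CM T) (v : α ⊕ ℕ → M), (∀ φ ∈ Δ, φ.Realize (v ∘ Sum.inl)) ∧ f.Realize v

instance (k : ℕ) (Δ : Set (L.Formula α)) : Preorder (Cond T k Δ) where
  le γ γ' := ∀ (M : CM T) (v : α ⊕ ℕ → M), γ'.f.Realize v → γ.f.Realize v
  le_refl _ _ _ h := h
  le_trans _ _ _ h1 h2 M v h := h1 M v (h2 M v h)

/-- The Henkin requirement. -/
def Hset (T : L.Theory) (k : ℕ) (Δ : Set (L.Formula α)) (m : ℕ)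
    (ψ : L.Formula ((α ⊕ ℕ) ⊕ Fin m)) : Set (Cond T k Δ) :=
  {γ | (∀ (M : CM T) (u : α ⊕ ℕ → M), (∀ φ ∈ Δ, φ.Realize (u ∘ Sum.inl)) → γ.f.Realize u →
        ∀ w : Fin m → M, ¬ ψ.Realize (Sum.elim u w)) ∨
      ∃ g : Fin m → α ⊕ ℕ, ∀ (M : CM T) (u : α ⊕ ℕ → M), γ.f.Realize u →
        ψ.Realize (Sum.elim u (u ∘ g))}

theorem exists_bound (s : Finset (α ⊕ ℕ)) : ∃ N : ℕ, ∀ i : ℕ, Sum.inr i ∈ s → i < N := by
  refine ⟨s.sup (Sum.elim (fun _ => 0) (fun i => i + 1)), fun i hi => ?_⟩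
  have h := Finset.le_sup (f := Sum.elim (fun _ : α => 0) (fun i : ℕ => i + 1)) hi
  simp only [Sum.elim_inr] at h
  omega

theorem exists_bound' {m : ℕ} (s : Finset ((α ⊕ ℕ) ⊕ Fin m)) :
    ∃ N : ℕ, ∀ i : ℕ, Sum.inl (Sum.inr i) ∈ s → i < N := by
  refine ⟨s.sup (Sum.elim (Sum.elim (fun _ => 0) (fun i => i + 1)) (fun _ => 0)), fun i hi => ?_⟩
  have h := Finset.le_sup
    (f := Sum.elim (Sum.elim (fun _ : α => 0) (fun i : ℕ => i + 1)) (fun _ : Fin m => 0)) hi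
  simp only [Sum.elim_inl, Sum.elim_inr] at h
  omega

theorem exists_mem_Hset {k : ℕ} {Δ : Set (L.Formula α)} {m : ℕ}
    (ψ : L.Formula ((α ⊕ ℕ) ⊕ Fin m)) (hψ : Lv false (k + 1) ψ) (γ : Cond T k Δ) :
    ∃ γ' ∈ Hset T k Δ m ψ, γ ≤ γ' := by
  by_cases hγ : (∀ (M : CM T) (u : α ⊕ ℕ → M), (∀ φ ∈ Δ, φ.Realize (u ∘ Sum.inl)) →
      γ.f.Realize u → ∀ w : Fin m → M, ¬ ψ.Realize (Sum.elim u w))
  · exact ⟨γ, Or.inl hγ, le_refl _⟩
  · push Not at hγ
    obtain ⟨M, u, hu1, hu2, w, hw⟩ := hγ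
    obtain ⟨s1, hs1⟩ := exists_support γ.f
    obtain ⟨s2, hs2⟩ := exists_support ψ
    obtain ⟨N1, hN1⟩ := exists_bound s1
    obtain ⟨N2, hN2⟩ := exists_bound' s2
    let N := max N1 N2
    let g : Fin m → α ⊕ ℕ := fun j => Sum.inr (N + j)
    let u' : α ⊕ ℕ → M := fun x => Sum.elim (fun a => u (Sum.inl a))
      (fun i => if h : N ≤ i ∧ i - N < m then w ⟨i - N, h.2⟩ else u (Sum.inr i)) x
    have hu'0 : u' ∘ Sum.inl = u ∘ Sum.inl := rfl
    have hu'1 : ∀ x : α ⊕ ℕ, (∀ i, x = Sum.inr i → i < N) → u' x = u x := by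
      intro x hx
      rcases x with a | i
      · rfl
      · have := hx i rfl
        show (if h : N ≤ i ∧ i - N < m then w ⟨i - N, h.2⟩ else u (Sum.inr i)) = u (Sum.inr i)
        rw [dif_neg (by omega)]
    have hu'2 : ∀ j : Fin m, u' (g j) = w j := by
      intro j
      show (if h : N ≤ N + (j : ℕ) ∧ N + (j : ℕ) - N < m then w ⟨N + (j : ℕ) - N, h.2⟩
        else u (Sum.inr (N + (j : ℕ)))) = w j
      have hj := j.2
      rw [dif_pos (by omega)]
      congr 1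
      apply Fin.ext
      simp
    have hγ' : γ.f.Realize u' := by
      refine (hs1 M u' u fun x hx => hu'1 x fun i hi => ?_).2 hu2
      subst hi
      exact lt_of_lt_of_le (hN1 i hx) (le_max_left _ _)
    have hψ' : ψ.Realize (Sum.elim u' (u' ∘ g)) := by
      refine (hs2 M _ (Sum.elim u w) fun x hx => ?_).2 hw
      rcases x with x | j
      · simp only [Sum.elim_inl]
        refine hu'1 x fun i hi => ?_
        subst hi
        exact lt_of_lt_of_le (hN2 i hx) (le_max_right _ _)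
      · simp only [Sum.elim_inr, Function.comp_apply]
        exact hu'2 j
    have hrel : ∀ (M : CM T) (z : α ⊕ ℕ → M),
        (ψ.relabel (Sum.elim id g) : L.Formula (α ⊕ ℕ)).Realize z ↔
          ψ.Realize (Sum.elim z (z ∘ g)) := by
      intro M z
      rw [Formula.realize_relabel]
      have : z ∘ Sum.elim id g = Sum.elim z (z ∘ g) := by
        funext x
        rcases x with x | x <;> rfl
      rw [this]
    let γ' : Cond T k Δ :=
      { f := γ.f ⊓ (ψ.relabel (Sum.elim id g) : L.Formula (α ⊕ ℕ))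
        lv := γ.lv.inf (hψ.relabel _)
        sat := ⟨M, u', by rw [hu'0]; exact hu1, by
          rw [Formula.realize_inf]
          exact ⟨hγ', (hrel M u').2 hψ'⟩⟩ }
    refine ⟨γ', Or.inr ⟨g, fun M z hz => ?_⟩, fun M z hz => ?_⟩
    · exact (hrel M z).1 (Formula.realize_inf.1 hz).2
    · exact (Formula.realize_inf.1 hz).1

theorem exists_seq (hL : L.card ≤ ℵ₀) [Countable α] (k : ℕ)
    (Δ : Set (L.Formula α)) (hs : Sat T Δ) :
    ∃ γ : ℕ → Cond T k Δ, Monotone γ ∧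
      ∀ (m : ℕ) (ψ : L.Formula ((α ⊕ ℕ) ⊕ Fin m)), Lv false (k + 1) ψ →
        ∃ n, γ n ∈ Hset T k Δ m ψ := by
  classical
  obtain ⟨M₀, v₀, hv₀⟩ := hs
  let γ₀ : Cond T k Δ :=
    { f := ⊤
      lv := Lv.top
      sat := ⟨M₀, Sum.elim v₀ (fun _ => Classical.arbitrary M₀), hv₀, by
        simp [Formula.Realize]⟩ }
  let ι := {x : Σ m, L.Formula ((α ⊕ ℕ) ⊕ Fin m) // Lv false (k + 1) x.2}
  haveI : ∀ m, Countable (L.Formula ((α ⊕ ℕ) ⊕ Fin m)) := fun m => countable_formula hL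
  haveI : Countable ι := Subtype.countable
  letI : Encodable ι := Encodable.ofCountable ι
  let 𝒟 : ι → Order.Cofinal (Cond T k Δ) := fun x =>
    { carrier := Hset T k Δ x.1.1 x.1.2
      isCofinal := fun γ => exists_mem_Hset x.1.2 x.2 γ }
  refine ⟨Order.sequenceOfCofinals γ₀ 𝒟, Order.sequenceOfCofinals.monotone γ₀ 𝒟, ?_⟩
  intro m ψ hψ
  exact ⟨_, Order.sequenceOfCofinals.encode_mem γ₀ 𝒟 ⟨⟨m, ψ⟩, hψ⟩⟩

/-- PROOF.  Let `ι = α ⊕ ℕ`, `Δ' = {φ.relabel Sum.inl | φ ∈ Δ}`.  Conditions are formulas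
`γ : L.Formula ι` with `Lv false (k+1) γ` such that `Δ' ∪ {γ}` is satisfied in some `CM T`;
`γ ≤ γ'` iff `γ'` implies `γ` in all `CM T`.  For `m` and `ψ : L.Formula (ι ⊕ Fin m)` with
`Lv false (k+1) ψ` the set `H` of the `γ` such that
either (i) no `M : CM T`, `u : ι → M`, `w` with `Δ'`, `γ` true at `u` and `ψ` true at `(u, w)`,
or (ii) there is `g : Fin m → ι` such that `γ` implies `ψ (id, g)` in all `CM T`
is cofinal: if (i) fails for `γ`, take `g j = Sum.inr (N + j)` with `N` larger than all indices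
in the supports (`exists_support`) of `γ`, `ψ`; then
`γ' = γ ⊓ ψ.relabel (Sum.elim id g)` is a condition (change the values at the new variables; the
formulas in `Δ'` do not depend on them).
By Rasiowa-Sikorski (`Order.idealOfCofinals`, `Encodable` index set, `countable_formula`) there is
an ideal `I` meeting all these `H`.  By compactness (`sat_of_fin`, directedness of `I`) there is
`B : CM T` and `v : ι → B` realising `Δ'` and all `γ ∈ I`.  Given `ψ`, take `γ ∈ I ∩ H`; in case (ii)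
the first alternative of the conclusion holds; in case (i), by compactness
(for the variables `ι ⊕ Fin m`) finitely many members of `Δ'` suffice, and the conjunction
of them with `γ` is the formula wanted. -/
theorem exists_generic (hL : L.card ≤ ℵ₀) [Countable α] (k : ℕ)
    (Δ : Set (L.Formula α)) (hΔ : ∀ φ ∈ Δ, Lv false (k + 1) φ) (hs : Sat T Δ) :
    ∃ (B : CM T) (v : α ⊕ ℕ → B), (∀ φ ∈ Δ, φ.Realize (v ∘ Sum.inl)) ∧
      ∀ (m : ℕ) (ψ : L.Formula ((α ⊕ ℕ) ⊕ Fin m)), Lv false (k + 1) ψ →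
        (∃ g : Fin m → α ⊕ ℕ, ψ.Realize (Sum.elim v (v ∘ g))) ∨
        ∃ γ : L.Formula (α ⊕ ℕ), Lv false (k + 1) γ ∧ γ.Realize v ∧
          ∀ (M : CM T) (u : α ⊕ ℕ → M), γ.Realize u → ∀ w : Fin m → M,
            ¬ ψ.Realize (Sum.elim u w) := by
  classical
  obtain ⟨γ, hmono, hH⟩ := exists_seq hL k Δ hs
  -- the model
  have hB : Sat T ((fun φ : L.Formula α => (φ.relabel Sum.inl : L.Formula (α ⊕ ℕ))) '' Δ ∪
      Set.range (fun n => (γ n).f)) := by
    rw [Set.union_comm]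
    apply sat_union_of_fin hL
    intro Γ₀ hΓ
    have hN : ∃ N : ℕ, ∀ φ ∈ Γ₀, ∃ n, n ≤ N ∧ (γ n).f = φ := by
      have h1 : ∀ φ : Γ₀, ∃ n, (γ n).f = φ.1 := fun φ => hΓ φ.2
      choose c hc using h1
      refine ⟨Finset.univ.sup c, fun φ hφ => ⟨c ⟨φ, hφ⟩, ?_, hc ⟨φ, hφ⟩⟩⟩
      exact Finset.le_sup (f := c) (Finset.mem_univ _)
    obtain ⟨N, hN⟩ := hN
    obtain ⟨M, v, hv1, hv2⟩ := (γ N).sat
    refine ⟨M, v, ?_⟩
    rintro φ (hφ | ⟨φ, hφ, rfl⟩)
    · obtain ⟨n, hn, rfl⟩ := hN φ hφ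
      exact hmono hn M v hv2
    · rw [Formula.realize_relabel]
      exact hv1 φ hφ
  obtain ⟨B, v, hv⟩ := hB
  refine ⟨B, v, fun φ hφ => ?_, ?_⟩
  · have := hv _ (Or.inl ⟨φ, hφ, rfl⟩)
    rwa [Formula.realize_relabel] at this
  intro m ψ hψ
  obtain ⟨n, hn⟩ := hH m ψ hψ
  have hγv : (γ n).f.Realize v := hv _ (Or.inr ⟨n, rfl⟩)
  rcases hn with hn | ⟨g, hg⟩
  · right
    by_contra hcon
    push Not at hcon
    -- compactness in the variables `(α ⊕ ℕ) ⊕ Fin m`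
    have hsat : Sat T ((fun φ : L.Formula α =>
        (φ.relabel (Sum.inl ∘ Sum.inl) : L.Formula ((α ⊕ ℕ) ⊕ Fin m))) '' Δ ∪
        {(((γ n).f).relabel Sum.inl : L.Formula ((α ⊕ ℕ) ⊕ Fin m)), ψ}) := by
      apply sat_union_of_fin hL
      intro Γ₀ hΓ
      obtain ⟨Δ₀, hΔ₀, rfl⟩ := Finset.subset_set_image_iff.1 hΓ
      obtain ⟨δ, hδ1, hδ2⟩ := exists_conj (b := false) (k := k + 1) Δ₀
        (fun φ hφ => hΔ φ (hΔ₀ hφ))
      have hvδ : ((δ.relabel Sum.inl : L.Formula (α ⊕ ℕ)) ⊓ (γ n).f).Realize v := by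
        rw [Formula.realize_inf, Formula.realize_relabel]
        refine ⟨(hδ2 B _).2 fun φ hφ => ?_, hγv⟩
        have := hv _ (Or.inl ⟨φ, hΔ₀ hφ, rfl⟩)
        rwa [Formula.realize_relabel] at this
      obtain ⟨M, u, hu, w, hw⟩ := hcon _ ((hδ1.relabel _).inf (γ n).lv) hvδ
      rw [Formula.realize_inf, Formula.realize_relabel] at hu
      refine ⟨M, Sum.elim u w, ?_⟩
      rintro φ (hφ | hφ)
      · rw [Finset.mem_coe, Finset.mem_image] at hφ
        obtain ⟨φ, hφ, rfl⟩ := hφ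
        rw [Formula.realize_relabel]
        exact (hδ2 M _).1 hu.1 φ hφ
      · rcases hφ with rfl | hφ
        · rw [Formula.realize_relabel]
          exact hu.2
        · rw [Set.mem_singleton_iff.1 hφ]
          exact hw
    obtain ⟨M, z, hz⟩ := hsat
    refine hn M (z ∘ Sum.inl) (fun φ hφ => ?_) ?_ (z ∘ Sum.inr) ?_
    · have := hz _ (Or.inl ⟨φ, hφ, rfl⟩)
      rwa [Formula.realize_relabel] at this
    · have := hz _ (Or.inr (Or.inl rfl))
      rwa [Formula.realize_relabel] at this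
    · have := hz ψ (Or.inr (Or.inr rfl))
      rwa [Sum.elim_comp_inl_inr]
  · left
    exact ⟨g, hg B v hγv⟩

end Pool.Agent.W_4a2a4a_h31
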