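import Pool.Agent.W_4a2a4a_h31.Defs

/-! # Syntactic lemmas on the hierarchy -/

namespace Pool.Agent.W_4a2a4a_h31

open FirstOrder FirstOrder.Language Cardinal

variable {L : FirstOrder.Language.{0, 0}} {α β : Type} {b : Bool} {k l m n : ℕ}

/-- PROOF: induction on `h` (generalising nothing); `qf` gives `IsLv (!b) 0`, then `step`. -/
theorem IsLv.succ {φ : L.BoundedFormula α n} (h : IsLv b k φ) : IsLv b (k + 1) φ := by
  induction h with
  | qf h => exact IsLv.step (IsLv.qf h)
  | step _ ih => exact IsLv.step ih
  | all _ ih => exact IsLv.all ih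
  | ex _ ih => exact IsLv.ex ih

theorem IsLv.mono {φ : L.BoundedFormula α n} (h : IsLv b k φ) (hkl : k ≤ l) : IsLv b l φ := by
  induction hkl with
  | refl => exact h
  | step _ ih => exact ih.succ

/-- PROOF: induction on `h`, Mathlib's `IsQF.relabel`, `relabel_all`, `relabel_ex`. -/
theorem IsLv.relabel {φ : L.BoundedFormula α m} (h : IsLv b k φ) (f : α → β ⊕ Fin n) :
    IsLv b k (φ.relabel f) := by
  induction h with
  | qf h => exact IsLv.qf (h.relabel f)
  | step _ ih => exact IsLv.step ih
  | all _ ih =>
    rw [BoundedFormula.relabel_all]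
    exact IsLv.all ih
  | ex _ ih =>
    rw [BoundedFormula.relabel_ex]
    exact IsLv.ex ih

theorem IsLv.castLE {φ : L.BoundedFormula α m} (h : IsLv b k φ) (hmn : m ≤ n) :
    IsLv b k (φ.castLE hmn) := by
  induction h generalizing n with
  | qf h => exact IsLv.qf h.castLE
  | step _ ih => exact IsLv.step (ih hmn)
  | all _ ih => exact IsLv.all (ih (Nat.add_le_add_right hmn 1))
  | ex _ ih => exact IsLv.ex (ih (Nat.add_le_add_right hmn 1))

theorem IsLv.liftAt {φ : L.BoundedFormula α n} (h : IsLv b k φ) (p q : ℕ) :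
    IsLv b k (φ.liftAt p q) := by
  induction h with
  | qf h => exact IsLv.qf h.liftAt
  | step _ ih => exact IsLv.step ih
  | all _ ih => exact IsLv.all (ih.castLE _)
  | ex _ ih => exact IsLv.ex (ih.castLE _)

/-- PROOF: induction on `h`, `toFormula` of `φ.all` is by definition
`(φ.toFormula.relabel _).all`, and `φ.ex = φ.not.all.not`. -/
theorem IsLv.toFormula {φ : L.BoundedFormula α n} (h : IsLv b k φ) :
    IsLv b k φ.toFormula := by
  induction h with
  | qf h =>
    apply IsLv.qf
    induction h with
    | falsum => exact BoundedFormula.IsQF.falsum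
    | of_isAtomic h =>
      cases h with
      | equal t₁ t₂ => exact (BoundedFormula.IsAtomic.equal _ _).isQF
      | rel R ts => exact (BoundedFormula.IsAtomic.rel _ _).isQF
    | imp _ _ ih1 ih2 => exact ih1.imp ih2
  | step _ ih => exact IsLv.step ih
  | all _ ih => exact IsLv.all (ih.relabel _)
  | ex _ ih =>
    exact IsLv.ex (ih.relabel _)

theorem IsLv.exs : ∀ {n : ℕ} {φ : L.BoundedFormula α n}, IsLv false (k + 1) φ →
    IsLv false (k + 1) φ.exs
  | 0, _, h => h
  | _ + 1, φ, h => by
    show IsLv false (k + 1) φ.ex.exs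
    exact IsLv.exs (IsLv.ex h)

theorem IsLv.iExs [Finite β] {φ : L.Formula (α ⊕ β)} (h : IsLv false (k + 1) φ) :
    IsLv false (k + 1) (φ.iExs β) :=
  IsLv.exs (h.relabel _)

/-- The language map `L → L[[α]]` preserves the levels. -/
theorem IsLv.onBoundedFormula {L' : FirstOrder.Language.{0, 0}} (g : L →ᴸ L') {φ : L.BoundedFormula α n}
    (h : IsLv b k φ) : IsLv b k (g.onBoundedFormula φ) := by
  induction h with
  | qf h =>
    apply IsLv.qf
    induction h with
    | falsum => exact BoundedFormula.IsQF.falsum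
    | of_isAtomic h =>
      cases h with
      | equal t₁ t₂ => exact (BoundedFormula.IsAtomic.equal _ _).isQF
      | rel R ts => exact (BoundedFormula.IsAtomic.rel _ _).isQF
    | imp _ _ ih1 ih2 => exact ih1.imp ih2
  | step _ ih => exact IsLv.step ih
  | all _ ih => exact IsLv.all ih
  | ex _ ih => exact IsLv.ex ih

theorem IsLv.mapTermRel {L' : FirstOrder.Language.{0, 0}} {γ : Type}
    (ft : ∀ n, L.Term (α ⊕ Fin n) → L'.Term (γ ⊕ Fin n))
    (fr : ∀ n, L.Relations n → L'.Relations n) {φ : L.BoundedFormula α n} (h : IsLv b k φ) :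
    IsLv b k (φ.mapTermRel ft fr fun _ => id) := by
  induction h with
  | qf h =>
    apply IsLv.qf
    induction h with
    | falsum => exact BoundedFormula.IsQF.falsum
    | of_isAtomic h =>
      cases h with
      | equal t₁ t₂ => exact (BoundedFormula.IsAtomic.equal _ _).isQF
      | rel R ts => exact (BoundedFormula.IsAtomic.rel _ _).isQF
    | imp _ _ ih1 ih2 => exact ih1.imp ih2
  | step _ ih => exact IsLv.step ih
  | all _ ih => exact IsLv.all ih
  | ex _ ih => exact IsLv.ex ih

/-- Turning the free variables into constants preserves the levels.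
PROOF: `equivSentence = (constantsVarsEquiv.trans (relabelEquiv _)).symm`, both are
`mapTermRelEquiv`s; prove a lemma for `mapTermRel _ _ (fun _ => id)` by induction on `h`. -/
theorem IsLv.equivSentence {φ : L.Formula α} (h : IsLv b k φ) :
    IsLv b k (Formula.equivSentence φ) :=
  IsLv.mapTermRel _ _ (IsLv.mapTermRel _ _ h)

end Pool.Agent.W_4a2a4a_h31
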