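import Pool.Agent.W_4a2a4a_h31.Fact4

/-! # Finitely many countable models: all types are uniformly bounded -/

namespace Pool.Agent.W_4a2a4a_h31

open FirstOrder FirstOrder.Language Cardinal

variable {L : FirstOrder.Language.{0, 0}} {α β : Type} {T : L.Theory}

theorem PiAx.mono {k l : ℕ} (h : PiAx k T) (hkl : k ≤ l) : PiAx l T := by
  obtain ⟨A, hA, hM⟩ := h
  exact ⟨A, fun σ hσ => (hA σ hσ).mono hkl, hM⟩

theorem EAx.mono {k l : ℕ} {p : Set (L.Formula α)} (h : EAx T k p) (hkl : k ≤ l) : EAx T l p :=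
  fun r hr hp => h r hr fun φ hφ hl => hp φ hφ (hl.mono hkl)

theorem AAx.mono {k l : ℕ} {p : Set (L.Formula α)} (h : AAx T k p) (hkl : k ≤ l) : AAx T l p :=
  fun r hr hp => h r hr fun φ hφ hl => hp φ hφ (hl.mono hkl)

/-- PROOF: `exists_ec` for `Δ = ` the `∃_(k+1)`-part of `q`; the tuple found has a type containing
the `∀_c`-part of `q` (`Lv.step`, `Lv.mono`). -/
theorem exists_ec_rlz (hL : L.card ≤ ℵ₀) [Finite α] {c k : ℕ} (hT : PiAx (k + 2) T)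
    {q : Set (L.Formula α)} (hq : IsTp T q) (ha : AAx T c q) (hck : c ≤ k) :
    ∃ E : CM T, IsEC T k E ∧ Rlz E q := by
  obtain ⟨E, hE, v, hv⟩ := exists_ec hL hT {φ | φ ∈ q ∧ Lv false (k + 1) φ}
    (fun φ hφ => hφ.2) (by
      obtain ⟨M, v, rfl⟩ := hq
      exact ⟨M, v, fun φ hφ => hφ.1⟩)
  refine ⟨E, fun β _ w => hE β w, v, ?_⟩
  refine ha _ ⟨E, v, rfl⟩ fun φ hφ hl => ?_
  have h1 : Lv false (c + 1) φ := Lv.step (b := false) (by simpa using hl)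
  exact hv φ ⟨hφ, h1.mono (by omega)⟩

/-- The models among the `N i` realising `q`. -/
def Dset {t : ℕ} (N : Fin t → CM T) (q : Set (L.Formula α)) : Set (Fin t) :=
  {i | Rlz (N i) q}

theorem Rlz.equiv {M N : Type} [L.Structure M] [L.Structure N] (e : M ≃[L] N)
    {p : Set (L.Formula α)} (h : Rlz M p) : Rlz N p := by
  obtain ⟨v, hv⟩ := h
  exact ⟨e ∘ v, by rw [tp_equiv, hv]⟩

theorem eax_of_dset (hL : L.card ≤ ℵ₀) [Finite α] [Finite β] {c m t : ℕ} (hT : PiAx m T)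
    (hmc : m ≤ c) {N : Fin t → CM T} (hN : FinMod T t N)
    {q : Set (L.Formula β)} (hq : IsTp T q) (ha : AAx T c q)
    {p : Set (L.Formula α)} (hp : IsTp T p) (hd : Dset N p = Dset N q) :
    EAx T (c + 1) p := by
  refine fact4 hL (fun m => hN.countable) hp fun k hk => ?_
  obtain ⟨E, hE, hr⟩ := exists_ec_rlz hL (hT.mono (by omega : m ≤ k + 2)) hq ha hk
  obtain ⟨i, ⟨e⟩⟩ := hN E
  have h1 : i ∈ Dset N q := hr.equiv e
  rw [← hd] at h1
  exact ⟨E, hE, Rlz.equiv e.symm h1⟩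

/-- A uniform bound for all bounded types. -/
theorem exists_uniform (hL : L.card ≤ ℵ₀) {m t : ℕ} (hT : PiAx m T)
    {N : Fin t → CM T} (hN : FinMod T t N) :
    ∃ K, ∀ (n : ℕ) (p : Set (L.Formula (Fin n))), IsTp T p → (∃ c, AAx T c p) → EAx T K p := by
  classical
  have h1 : ∀ D : Set (Fin t), ∃ c : ℕ, m ≤ c ∧
      ((∃ (n : ℕ) (q : Set (L.Formula (Fin n))), IsTp T q ∧ (∃ c, AAx T c q) ∧ Dset N q = D) →
        ∃ (n : ℕ) (q : Set (L.Formula (Fin n))), IsTp T q ∧ AAx T c q ∧ Dset N q = D) := by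
    intro D
    by_cases h : ∃ (n : ℕ) (q : Set (L.Formula (Fin n))), IsTp T q ∧ (∃ c, AAx T c q) ∧
        Dset N q = D
    · obtain ⟨n, q, hq, ⟨c, hc⟩, hD⟩ := h
      exact ⟨max m c, le_max_left _ _, fun _ => ⟨n, q, hq, hc.mono (le_max_right _ _), hD⟩⟩
    · exact ⟨m, le_rfl, fun h' => absurd h' h⟩
  choose c hc1 hc2 using h1
  obtain ⟨K, hK⟩ := (Set.finite_range c).bddAbove
  refine ⟨K + 1, fun n p hp hpc => ?_⟩
  obtain ⟨n', q, hq, ha, hD⟩ := hc2 (Dset N p) ⟨n, p, hp, hpc, rfl⟩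
  have h2 := eax_of_dset hL hT (hc1 (Dset N p)) hN hq ha hp hD.symm
  exact h2.mono (by have := hK ⟨Dset N p, rfl⟩; omega)

theorem all_bounded (hL : L.card ≤ ℵ₀) {m t : ℕ} (hT : PiAx m T)
    {N : Fin t → CM T} (hN : FinMod T t N) (n : ℕ) (p : Set (L.Formula (Fin n)))
    (hp : IsTp T p) : ∃ c, AAx T c p := by
  by_contra hcon
  obtain ⟨K, hK⟩ := exists_uniform hL hT hN
  obtain ⟨s, ⟨hs1, hs2⟩, θ, hθ, hiso⟩ := exists_isolated hL (hN.countable (α := Fin n))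
    (X := {s | IsTp T s ∧ ¬ ∃ c, AAx T c s}) (fun s hs => hs.1) ⟨p, hp, hcon⟩
  obtain ⟨l, hl⟩ := exists_lv θ
  apply hs2
  refine ⟨max l K, fun r hr hsr => ?_⟩
  have hθr : θ ∈ r := hsr θ hθ ((hl true).mono (le_max_left _ _))
  by_cases hrb : ∃ c, AAx T c r
  · symm
    refine hK n r hr hrb s hs1 fun φ hφ hφl => ?_
    by_contra hn
    have h3 : φ.not ∈ s := (hs1.not_mem φ).2 hn
    have h4 : Lv true K (BoundedFormula.not φ) := by
      have := Lv.not hφl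
      simpa using this
    exact (hr.not_mem φ).1 (hsr _ h3 (h4.mono (le_max_right _ _))) hφ
  · exact hiso r ⟨hr, hrb⟩ hθr

end Pool.Agent.W_4a2a4a_h31
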