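import Pool.Agent.W_4a2a4a_h31.Fin

/-! # Finitely many classes of types: all types are uniformly bounded -/

namespace Pool.Agent.W_4a2a4a_h31

open FirstOrder FirstOrder.Language Cardinal

variable {L : FirstOrder.Language.{0, 0}} {α β : Type} {T : L.Theory}

/-- The countable models of `T` in which the set of formulas `q` is the type of a tuple. -/
def Dm (T : L.Theory) (q : Set (L.Formula α)) : Set (CM T) :=
  {M | Rlz M q}

/-- Countably many types in each finite set of variables. -/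
def SmallTp (T : L.Theory) : Prop :=
  ∀ (α : Type) [Finite α], {s : Set (L.Formula α) | IsTp T s}.Countable

theorem eax_of_dm (hL : L.card ≤ ℵ₀) (hS : SmallTp T) [Finite α] [Finite β] {c m : ℕ}
    (hT : PiAx m T) (hmc : m ≤ c)
    {q : Set (L.Formula β)} (hq : IsTp T q) (ha : AAx T c q)
    {p : Set (L.Formula α)} (hp : IsTp T p) (hd : Dm T q ⊆ Dm T p) :
    EAx T (c + 1) p := by
  refine fact4 hL (fun m => hS _) hp fun k hk => ?_
  obtain ⟨E, hE, hr⟩ := exists_ec_rlz hL (hT.mono (by omega : m ≤ k + 2)) hq ha hk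
  exact ⟨E, hE, hd hr⟩

/-- A uniform bound for all bounded types in `n ∈ S` variables. -/
theorem exists_uniform_n (hL : L.card ≤ ℵ₀) (hS : SmallTp T) {m : ℕ} (hT : PiAx m T)
    (S : Set ℕ)
    (hfin : {D : Set (CM T) | ∃ n ∈ S, ∃ p : Set (L.Formula (Fin n)),
      IsTp T p ∧ Dm T p = D}.Finite) :
    ∃ K, ∀ n ∈ S, ∀ (p : Set (L.Formula (Fin n))), IsTp T p → (∃ c, AAx T c p) →
      EAx T K p := by
  classical
  have h1 : ∀ D : Set (CM T), ∃ c : ℕ, m ≤ c ∧
      ((∃ (n : ℕ) (q : Set (L.Formula (Fin n))), IsTp T q ∧ (∃ c, AAx T c q) ∧ Dm T q = D) →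
        ∃ (n : ℕ) (q : Set (L.Formula (Fin n))), IsTp T q ∧ AAx T c q ∧ Dm T q = D) := by
    intro D
    by_cases h : ∃ (n : ℕ) (q : Set (L.Formula (Fin n))), IsTp T q ∧ (∃ c, AAx T c q) ∧
        Dm T q = D
    · obtain ⟨n, q, hq, ⟨c, hc⟩, hD⟩ := h
      exact ⟨max m c, le_max_left _ _, fun _ => ⟨n, q, hq, hc.mono (le_max_right _ _), hD⟩⟩
    · exact ⟨m, le_rfl, fun h' => absurd h' h⟩
  choose c hc1 hc2 using h1
  obtain ⟨K, hK⟩ := (hfin.image c).bddAbove
  refine ⟨K + 1, fun n hn p hp hpc => ?_⟩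
  obtain ⟨n', q, hq, ha, hD⟩ := hc2 (Dm T p) ⟨n, p, hp, hpc, rfl⟩
  have h2 := eax_of_dm hL hS hT (hc1 (Dm T p)) hq ha hp hD.subset
  exact h2.mono (by have := hK ⟨Dm T p, ⟨n, hn, p, hp, rfl⟩, rfl⟩; omega)

/-- If there is a uniform bound for the bounded types containing `θ` and `θ` isolates an
unbounded type among the unbounded ones, contradiction. -/
theorem exists_unbounded_iso (hL : L.card ≤ ℵ₀) (hS : SmallTp T) [Finite α]
    (p : Set (L.Formula α)) (hp : IsTp T p) (hcon : ¬ ∃ c, AAx T c p) (K : ℕ) :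
    ∃ q : Set (L.Formula α), IsTp T q ∧ (∃ c, AAx T c q) ∧ ¬ EAx T K q := by
  by_contra hno
  push Not at hno
  obtain ⟨s, ⟨hs1, hs2⟩, θ, hθ, hiso⟩ := exists_isolated hL (hS α)
    (X := {s | IsTp T s ∧ ¬ ∃ c, AAx T c s}) (fun s hs => hs.1) ⟨p, hp, hcon⟩
  obtain ⟨l, hl⟩ := exists_lv θ
  apply hs2
  refine ⟨max l K, fun r hr hsr => ?_⟩
  have hθr : θ ∈ r := hsr θ hθ ((hl true).mono (le_max_left _ _))
  by_cases hrb : ∃ c, AAx T c r
  · symm
    refine hno r hr hrb s hs1 fun φ hφ hφl => ?_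
    by_contra hn
    have h3 : φ.not ∈ s := (hs1.not_mem φ).2 hn
    have h4 : Lv true K (BoundedFormula.not φ) := by
      have := Lv.not hφl
      simpa using this
    exact (hr.not_mem φ).1 (hsr _ h3 (h4.mono (le_max_right _ _))) hφ
  · exact hiso r ⟨hr, hrb⟩ hθr

theorem all_bounded_n (hL : L.card ≤ ℵ₀) (hS : SmallTp T) {m : ℕ} (hT : PiAx m T)
    (S : Set ℕ)
    (hfin : {D : Set (CM T) | ∃ n ∈ S, ∃ p : Set (L.Formula (Fin n)),
      IsTp T p ∧ Dm T p = D}.Finite)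
    {n : ℕ} (hn : n ∈ S) (p : Set (L.Formula (Fin n))) (hp : IsTp T p) : ∃ c, AAx T c p := by
  by_contra hcon
  obtain ⟨K, hK⟩ := exists_uniform_n hL hS hT S hfin
  obtain ⟨q, hq, hqb, hqn⟩ := exists_unbounded_iso hL hS p hp hcon K
  exact hqn (hK n hn q hq hqb)

end Pool.Agent.W_4a2a4a_h31
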