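import Pool.Agent.W_4a2a4a_h31.Main2

/-! # An infinite chain of classes, and the final statements -/

namespace Pool.Agent.W_4a2a4a_h31

open FirstOrder FirstOrder.Language Cardinal

variable {L : FirstOrder.Language.{0, 0}} {α β : Type} {T : L.Theory}

/-- The restriction of a type along a map of variables. -/
def rs (f : α → β) (s : Set (L.Formula β)) : Set (L.Formula α) := {φ | φ.relabel f ∈ s}

theorem rs_tp {M : Type} [L.Structure M] (f : α → β) (v : β → M) :
    rs f (tp (L := L) v) = tp (v ∘ f) := by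
  ext φ
  show (φ.relabel f : L.Formula β).Realize v ↔ φ.Realize (v ∘ f)
  rw [Formula.realize_relabel]

theorem IsTp.rs {s : Set (L.Formula β)} (h : IsTp T s) (f : α → β) : IsTp T (rs f s) := by
  obtain ⟨M, v, rfl⟩ := h
  exact ⟨M, v ∘ f, (rs_tp f v).symm⟩

/-- In a complete theory two types are realised jointly. -/
theorem exists_joint (hL : L.card ≤ ℵ₀) (hc : T.IsComplete) [Finite α] [Finite β]
    {r : Set (L.Formula α)} (hr : IsTp T r) {q : Set (L.Formula β)} (hq : IsTp T q) :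
    ∃ s : Set (L.Formula (α ⊕ β)), IsTp T s ∧ rs Sum.inl s = r ∧ rs Sum.inr s = q := by
  classical
  have hca : Countable α := Finite.to_countable
  have hcb : Countable β := Finite.to_countable
  have hsat : Sat T ((fun φ : L.Formula α => (φ.relabel Sum.inl : L.Formula (α ⊕ β))) '' r ∪
      (fun φ : L.Formula β => (φ.relabel Sum.inr : L.Formula (α ⊕ β))) '' q) := by
    apply sat_union_of_fin hL
    intro Γ₀ hΓ
    obtain ⟨Δ₀, hΔ₀, rfl⟩ := Finset.subset_set_image_iff.1 hΓ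
    choose lv hlv using fun φ : L.Formula α => exists_lv φ
    obtain ⟨δ, hδ1, hδ2⟩ := exists_conj (b := false) (k := Δ₀.sup lv) Δ₀
      (fun φ hφ => ((hlv φ) false).mono (Finset.le_sup hφ))
    obtain ⟨M1, v1, rfl⟩ := hr
    obtain ⟨M2, v2, rfl⟩ := hq
    let σ : L.Sentence := ((δ.relabel Sum.inr : L.Formula (Empty ⊕ α)).iExs α : L.Formula Empty)
    have hσ : ∀ (M : CM T), M ⊨ σ ↔ ∃ v : α → M, δ.Realize v := by
      intro M
      show (Formula.iExs α (δ.relabel Sum.inr : L.Formula (Empty ⊕ α))).Realize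
        (default : Empty → M) ↔ _
      rw [Formula.realize_iExs]
      refine exists_congr fun v => ?_
      rw [Formula.realize_relabel]
      rfl
    have h1 : M1 ⊨ σ := (hσ M1).2 ⟨v1, (hδ2 M1 v1).2 fun φ hφ => hΔ₀ hφ⟩
    have h2 : M2 ⊨ σ := by
      rw [hc.realize_sentence_iff σ M2]
      exact (hc.realize_sentence_iff σ M1).1 h1
    obtain ⟨v, hv⟩ := (hσ M2).1 h2
    refine ⟨M2, Sum.elim v v2, ?_⟩
    rintro φ (hφ | ⟨φ, hφ, rfl⟩)
    · rw [Finset.mem_coe, Finset.mem_image] at hφ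
      obtain ⟨φ, hφ, rfl⟩ := hφ
      rw [Formula.realize_relabel]
      exact (hδ2 M2 v).1 hv φ hφ
    · rw [Formula.realize_relabel]
      exact hφ
  obtain ⟨M, v, hv⟩ := hsat
  refine ⟨tp v, ⟨M, v, rfl⟩, ?_, ?_⟩
  · rw [rs_tp]
    refine (hr.eq_of_subset ⟨M, _, rfl⟩ fun φ hφ => ?_).symm
    have := hv _ (Or.inl ⟨φ, hφ, rfl⟩)
    rwa [Formula.realize_relabel] at this
  · rw [rs_tp]
    refine (hq.eq_of_subset ⟨M, _, rfl⟩ fun φ hφ => ?_).symm
    have := hv _ (Or.inr ⟨φ, hφ, rfl⟩)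
    rwa [Formula.realize_relabel] at this

/-- Two bounded types have a bounded joint extension. -/
theorem exists_bounded_joint (hL : L.card ≤ ℵ₀) (hS : SmallTp T) (hc : T.IsComplete) [Finite α]
    [Finite β] {r : Set (L.Formula α)} (hr : IsTp T r) (hrb : ∃ c, AAx T c r)
    {q : Set (L.Formula β)} (hq : IsTp T q) (hqb : ∃ c, AAx T c q) :
    ∃ s : Set (L.Formula (α ⊕ β)), IsTp T s ∧ (∃ c, AAx T c s) ∧ rs Sum.inl s = r ∧
      rs Sum.inr s = q := by
  obtain ⟨s₀, h₀⟩ := exists_joint hL hc hr hq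
  have hcab : Countable (α ⊕ β) := Finite.to_countable
  obtain ⟨s, ⟨hs1, hs2, hs3⟩, θ, hθ, hiso⟩ := exists_isolated hL (hS (α ⊕ β))
    (X := {s | IsTp T s ∧ rs Sum.inl s = r ∧ rs Sum.inr s = q}) (fun s hs => hs.1) ⟨s₀, h₀⟩
  refine ⟨s, hs1, ?_, hs2, hs3⟩
  obtain ⟨c1, hc1⟩ := hrb
  obtain ⟨c2, hc2⟩ := hqb
  obtain ⟨l, hl⟩ := exists_lv θ
  refine ⟨max l (max c1 c2), fun s' hs' hsub => hiso s' ⟨hs', ?_, ?_⟩ ?_⟩
  · refine hc1 _ (hs'.rs _) fun φ hφ hφl => ?_
    rw [← hs2] at hφ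
    exact hsub _ hφ ((hφl.relabel _).mono
      ((le_max_left c1 c2).trans (le_max_right l (max c1 c2))))
  · refine hc2 _ (hs'.rs _) fun φ hφ hφl => ?_
    rw [← hs3] at hφ
    exact hsub _ hφ ((hφl.relabel _).mono
      ((le_max_right c1 c2).trans (le_max_right l (max c1 c2))))
  · exact hsub θ hθ ((hl true).mono (le_max_left _ _))

theorem dm_rs (f : α → β) (s : Set (L.Formula β)) : Dm T s ⊆ Dm T (rs f s) := by
  rintro M ⟨v, rfl⟩
  exact ⟨v ∘ f, (rs_tp f v).symm⟩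

/-- A bounded type in finitely many variables. -/
structure BTp (T : L.Theory) where
  /-- the variables -/
  var : Type
  [fin : Finite var]
  /-- the type -/
  tp : Set (L.Formula var)
  isTp : IsTp T tp
  bdd : ∃ c, AAx T c tp

theorem exists_step (hL : L.card ≤ ℵ₀) (hS : SmallTp T) (hc : T.IsComplete) {m : ℕ}
    (hT : PiAx m T) [Finite α] {p : Set (L.Formula α)} (hp : IsTp T p)
    (hcon : ¬ ∃ c, AAx T c p) (r : BTp T) : ∃ r' : BTp T, Dm T r'.tp ⊂ Dm T r.tp := by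
  have := r.fin
  obtain ⟨c, hcr⟩ := r.bdd
  obtain ⟨q, hq, hqb, hqn⟩ := exists_unbounded_iso hL hS p hp hcon (max m c + 1)
  have h1 : ¬ Dm T r.tp ⊆ Dm T q := fun h =>
    hqn (eax_of_dm hL hS hT (le_max_left m c) r.isTp (hcr.mono (le_max_right m c)) hq h)
  obtain ⟨s, hs, hsb, hsr, hsq⟩ := exists_bounded_joint hL hS hc r.isTp r.bdd hq hqb
  refine ⟨⟨r.var ⊕ α, s, hs, hsb⟩, ?_⟩
  constructor
  · show Dm T s ⊆ Dm T r.tp
    rw [← hsr]
    exact dm_rs _ _
  · intro h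
    apply h1
    refine h.trans ?_
    show Dm T s ⊆ Dm T q
    rw [← hsq]
    exact dm_rs _ _

theorem exists_chain (hL : L.card ≤ ℵ₀) (hS : SmallTp T) (hc : T.IsComplete) {m : ℕ}
    (hT : PiAx m T) [Finite α] {p : Set (L.Formula α)} (hp : IsTp T p)
    (hcon : ¬ ∃ c, AAx T c p) : ∃ r : ℕ → BTp T, ∀ i, Dm T (r (i + 1)).tp ⊂ Dm T (r i).tp := by
  choose f hf using fun r : BTp T => exists_step hL hS hc hT hp hcon r
  obtain ⟨q, hq, hqb, -⟩ := exists_unbounded_iso hL hS p hp hcon 0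
  exact ⟨fun n => Nat.rec ⟨α, q, hq, hqb⟩ (fun _ r => f r) n, fun i => hf _⟩

/-! ### Translation to complete types in the sense of Mathlib -/

/-- The countable models of `T` which realise the complete type `p`. -/
def Realizers (T : L.Theory) (p : T.CompleteType α) : Set (CM T) :=
  {M | p ∈ T.realizedTypes M α}

theorem realizers_eq (p : T.CompleteType α) : Realizers T p = Dm T (ofCT p) := by
  ext M
  constructor
  · rintro ⟨v, rfl⟩
    exact ⟨v, (ofCT_typeOf v).symm⟩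
  · rintro ⟨v, hv⟩
    refine ⟨v, ofCT_injective ?_⟩
    rw [ofCT_typeOf, hv]

theorem smallTp_of (h : ∀ n, Countable (T.CompleteType (Fin n))) :
    SmallTp T := by
  intro α _
  obtain ⟨n, ⟨e⟩⟩ := Finite.exists_equiv_fin α
  have hn := h n
  have h1 : {s : Set (L.Formula (Fin n)) | IsTp T s}.Countable := by
    refine (Set.countable_range (ofCT : T.CompleteType (Fin n) → _)).mono ?_
    intro s hs
    obtain ⟨p, hp⟩ := exists_ofCT hs
    exact ⟨p, hp⟩
  refine (h1.image (rs e)).mono ?_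
  rintro s ⟨M, v, rfl⟩
  refine ⟨tp (v ∘ e.symm), ⟨M, _, rfl⟩, ?_⟩
  rw [rs_tp]
  congr 1
  funext x
  simp

theorem bounded_of_aax (hL : L.card ≤ ℵ₀) [Finite α] {m : ℕ} (hT : PiAx m T)
    (p : T.CompleteType α) (h : ∃ c, AAx T c (ofCT p)) : Bounded (p : L[[α]].Theory) := by
  obtain ⟨c, hc⟩ := h
  have he : EAx T (c + 1) (ofCT p) := fun r hr hpr => hc r hr fun φ hφ hl =>
    hpr φ hφ (Lv.step (b := false) (by simpa using hl))
  exact ⟨_, piAx_of_eax hL (K := max m (c + 1)) hT (by omega) p (he.mono (le_max_right _ _))⟩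

/-- Part A. -/
theorem partA (hL : L.card ≤ ℵ₀) (hT : Bounded T) (S : Set ℕ)
    (h : (∃ (t : ℕ) (N : Fin t → CM T), ∀ M : CM T, ∃ i, Nonempty (M ≃[L] N i)) ∨
      ((∀ n, Countable (T.CompleteType (Fin n))) ∧
        {D : Set (CM T) | ∃ n ∈ S, ∃ p : T.CompleteType (Fin n), D = Realizers T p}.Finite)) :
    ∃ K, ∀ n ∈ S, ∀ p : T.CompleteType (Fin n), PiAx K (p : L[[Fin n]].Theory) := by
  rcases h with ⟨t, N, hN⟩ | ⟨hS, hfin⟩
  · obtain ⟨K, hK⟩ := main hL hT (N := N) hN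
    exact ⟨K, fun n _ p => hK n p⟩
  · obtain ⟨m, hm⟩ := hT
    have hS' := smallTp_of hS
    have hfin' : {D : Set (CM T) | ∃ n ∈ S, ∃ p : Set (L.Formula (Fin n)),
        IsTp T p ∧ Dm T p = D}.Finite := by
      refine hfin.subset ?_
      rintro D ⟨n, hn, s, hs, rfl⟩
      obtain ⟨p, rfl⟩ := exists_ofCT hs
      exact ⟨n, hn, p, (realizers_eq p).symm⟩
    obtain ⟨K, hK⟩ := exists_uniform_n hL hS' hm S hfin'
    refine ⟨max K m + 1, fun n hn p => ?_⟩
    have h1 := hK n hn (ofCT p) (isTp_ofCT hL p)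
      (all_bounded_n hL hS' hm S hfin' hn _ (isTp_ofCT hL p))
    exact piAx_of_eax hL hm (by omega) p (h1.mono (le_max_left _ _))

theorem AAx.rs_equiv {c : ℕ} {s : Set (L.Formula α)} (hs : IsTp T s) (h : AAx T c s)
    (e : α ≃ β) : AAx T c (rs e.symm s) := by
  intro r hr hsub
  obtain ⟨M, v, rfl⟩ := hs
  have h1 : rs e r = tp v := by
    refine h _ (hr.rs e) fun φ hφ hl => ?_
    refine hsub (φ.relabel e) ?_ (hl.relabel _)
    rw [rs_tp]
    show (φ.relabel e : L.Formula β).Realize (v ∘ e.symm)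
    rw [Formula.realize_relabel]
    have : (v ∘ e.symm) ∘ e = v := by
      funext x
      simp
    rw [this]
    exact hφ
  obtain ⟨N, u, rfl⟩ := hr
  rw [← h1, rs_tp, rs_tp]
  congr 1
  funext x
  simp

/-- Part B. -/
theorem partB (hL : L.card ≤ ℵ₀) (hT : Bounded T) (hc : T.IsComplete)
    (hS : ∀ n, Countable (T.CompleteType (Fin n))) (n : ℕ) (p : T.CompleteType (Fin n))
    (hp : ¬ Bounded (p : L[[Fin n]].Theory)) :
    ∃ r : ℕ → Σ k : ℕ, T.CompleteType (Fin k),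
      (∀ i, Bounded ((r i).2 : L[[Fin (r i).1]].Theory)) ∧
      StrictAnti fun i => Realizers T (r i).2 := by
  obtain ⟨m, hm⟩ := hT
  have hS' := smallTp_of hS
  obtain ⟨r, hr⟩ := exists_chain hL hS' hc hm (isTp_ofCT hL p)
    (fun h => hp (bounded_of_aax hL hm p h))
  have key : ∀ i, ∃ q : Σ k : ℕ, T.CompleteType (Fin k),
      Bounded (q.2 : L[[Fin q.1]].Theory) ∧ Realizers T q.2 = Dm T (r i).tp := by
    intro i
    have := (r i).fin
    obtain ⟨k, ⟨e⟩⟩ := Finite.exists_equiv_fin (r i).var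
    obtain ⟨q, hq⟩ := exists_ofCT ((r i).isTp.rs e.symm)
    refine ⟨⟨k, q⟩, ?_, ?_⟩
    · obtain ⟨c, hc'⟩ := (r i).bdd
      exact bounded_of_aax hL hm q ⟨c, by rw [hq]; exact AAx.rs_equiv (r i).isTp hc' e⟩
    · show Realizers T q = Dm T (r i).tp
      rw [realizers_eq, hq]
      apply le_antisymm
      · have h1 : rs e (rs e.symm (r i).tp) = (r i).tp := by
          obtain ⟨M, v, hv⟩ := (r i).isTp
          rw [← hv, rs_tp, rs_tp]
          congr 1
          funext x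
          simp
        have h2 := dm_rs (T := T) e (rs e.symm (r i).tp)
        rw [h1] at h2
        exact h2
      · exact dm_rs _ _
  choose q hq1 hq2 using key
  refine ⟨q, hq1, strictAnti_nat_of_succ_lt fun i => ?_⟩
  show Realizers T (q (i + 1)).2 < Realizers T (q i).2
  rw [hq2, hq2]
  exact hr i

end Pool.Agent.W_4a2a4a_h31
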