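import Pool.Agent.W_4a2a4a_h31.Lv

/-! # The hierarchy up to logical equivalence -/

namespace Pool.Agent.W_4a2a4a_h31

open FirstOrder FirstOrder.Language Cardinal

variable {L : FirstOrder.Language.{0, 0}} {α β : Type} {b : Bool} {k l m n : ℕ}

/-- Logical equivalence (over all nonempty structures in `Type`). -/
def EquiB (φ ψ : L.BoundedFormula α n) : Prop :=
  ∀ (M : Type) [L.Structure M] [Nonempty M] (v : α → M) (xs : Fin n → M),
    φ.Realize v xs ↔ ψ.Realize v xs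

/-- `φ` is logically equivalent to a `∀_k`-formula (`b = true`), `∃_k`-formula (`b = false`). -/
def Lv (b : Bool) (k : ℕ) (φ : L.BoundedFormula α n) : Prop :=
  ∃ ψ : L.BoundedFormula α n, IsLv b k ψ ∧ EquiB φ ψ

theorem IsLv.lv {φ : L.BoundedFormula α n} (h : IsLv b k φ) : Lv b k φ :=
  ⟨φ, h, fun _ _ _ _ _ => Iff.rfl⟩

theorem Lv.congr {φ ψ : L.BoundedFormula α n} (h : Lv b k ψ) (e : EquiB φ ψ) : Lv b k φ := by
  obtain ⟨χ, h1, h2⟩ := h
  exact ⟨χ, h1, fun M _ _ v xs => (e M v xs).trans (h2 M v xs)⟩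

theorem Lv.mono {φ : L.BoundedFormula α n} (h : Lv b k φ) (hkl : k ≤ l) : Lv b l φ := by
  obtain ⟨χ, h1, h2⟩ := h
  exact ⟨χ, h1.mono hkl, h2⟩

theorem Lv.step {φ : L.BoundedFormula α n} (h : Lv (!b) k φ) : Lv b (k + 1) φ := by
  obtain ⟨χ, h1, h2⟩ := h
  exact ⟨χ, IsLv.step h1, h2⟩

theorem Lv.qf {φ : L.BoundedFormula α n} (h : φ.IsQF) : Lv b k φ :=
  ((IsLv.qf (b := b) h).mono (Nat.zero_le k)).lv

theorem Lv.all {φ : L.BoundedFormula α (n + 1)} (h : Lv true (k + 1) φ) :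
    Lv true (k + 1) φ.all := by
  obtain ⟨χ, h1, h2⟩ := h
  refine ⟨χ.all, h1.all, fun M _ _ v xs => ?_⟩
  simp only [BoundedFormula.realize_all]
  exact forall_congr' fun a => h2 M v _

theorem Lv.ex {φ : L.BoundedFormula α (n + 1)} (h : Lv false (k + 1) φ) :
    Lv false (k + 1) φ.ex := by
  obtain ⟨χ, h1, h2⟩ := h
  refine ⟨χ.ex, h1.ex, fun M _ _ v xs => ?_⟩
  simp only [BoundedFormula.realize_ex]
  exact exists_congr fun a => h2 M v _

theorem IsLv.lv_not {φ : L.BoundedFormula α n} (h : IsLv b k φ) : Lv (!b) k φ.not := by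
  induction h with
  | qf h => exact Lv.qf h.not
  | step h ih => exact Lv.step ih
  | @all k n φ h ih =>
    refine Lv.congr (ψ := φ.not.ex) (Lv.ex ih) fun M _ _ v xs => ?_
    simp only [BoundedFormula.realize_not, BoundedFormula.realize_ex, BoundedFormula.realize_all]
    push Not
    rfl
  | @ex k n φ h ih =>
    refine Lv.congr (ψ := φ.not.all) (Lv.all ih) fun M _ _ v xs => ?_
    simp only [BoundedFormula.realize_not, BoundedFormula.realize_ex, BoundedFormula.realize_all]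
    push Not
    rfl

/-- PROOF: induction on `IsLv`. -/
theorem Lv.not {φ : L.BoundedFormula α n} (h : Lv b k φ) : Lv (!b) k φ.not := by
  obtain ⟨χ, h1, h2⟩ := h
  refine h1.lv_not.congr fun M _ _ v xs => ?_
  simp only [BoundedFormula.realize_not]
  exact not_congr (h2 M v xs)

theorem IsLv.isQF {φ : L.BoundedFormula α n} (h : IsLv b 0 φ) : φ.IsQF := by
  cases h with
  | qf h => exact h

theorem realize_lift (M : Type) [L.Structure M] (φ : L.BoundedFormula α n) (v : α → M)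
    (xs : Fin n → M) (a : M) :
    (φ.liftAt 1 n).Realize v (Fin.snoc xs a : Fin (n + 1) → M) ↔ φ.Realize v xs := by
  rw [BoundedFormula.realize_liftAt_one_self]
  simp

theorem inf_aux2 (ih : ∀ {b : Bool} {n : ℕ} {φ ψ : L.BoundedFormula α n},
      IsLv b k φ → IsLv b k ψ → Lv b k (φ ⊓ ψ)) {K : ℕ} {ψ : L.BoundedFormula α n}
    (h2 : IsLv b K ψ) : K = k + 1 → ∀ {φ : L.BoundedFormula α n}, IsLv (!b) k φ →
      Lv b (k + 1) (φ ⊓ ψ) := by
  induction h2 with
  | qf h => intro hK; omega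
  | step h _ =>
    intro hK φ h1
    cases hK
    exact Lv.step (ih h1 h)
  | @all k' n χ h ih' =>
    intro hK φ h1
    refine Lv.congr (ψ := (φ.liftAt 1 n ⊓ χ).all) (Lv.all (ih' hK (h1.liftAt 1 n)))
      fun M _ _ v xs => ?_
    simp only [BoundedFormula.realize_inf, BoundedFormula.realize_all, realize_lift]
    constructor
    · exact fun h a => ⟨h.1, h.2 a⟩
    · exact fun h => ⟨(h (Classical.arbitrary M)).1, fun a => (h a).2⟩
  | @ex k' n χ h ih' =>
    intro hK φ h1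
    refine Lv.congr (ψ := (φ.liftAt 1 n ⊓ χ).ex) (Lv.ex (ih' hK (h1.liftAt 1 n)))
      fun M _ _ v xs => ?_
    simp only [BoundedFormula.realize_inf, BoundedFormula.realize_ex, realize_lift]
    constructor
    · rintro ⟨h, a, ha⟩
      exact ⟨a, h, ha⟩
    · rintro ⟨a, h, ha⟩
      exact ⟨h, a, ha⟩

theorem inf_aux1 (ih : ∀ {b : Bool} {n : ℕ} {φ ψ : L.BoundedFormula α n},
      IsLv b k φ → IsLv b k ψ → Lv b k (φ ⊓ ψ)) {K : ℕ} {φ : L.BoundedFormula α n}
    (h1 : IsLv b K φ) : K = k + 1 → ∀ {ψ : L.BoundedFormula α n}, IsLv b (k + 1) ψ →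
      Lv b (k + 1) (φ ⊓ ψ) := by
  induction h1 with
  | qf h => intro hK; omega
  | step h _ =>
    intro hK ψ h2
    cases hK
    exact inf_aux2 ih h2 rfl h
  | @all k' n χ h ih' =>
    intro hK ψ h2
    refine Lv.congr (ψ := (χ ⊓ ψ.liftAt 1 n).all) (Lv.all (ih' hK (h2.liftAt 1 n)))
      fun M _ _ v xs => ?_
    simp only [BoundedFormula.realize_inf, BoundedFormula.realize_all, realize_lift]
    constructor
    · exact fun h a => ⟨h.1 a, h.2⟩
    · exact fun h => ⟨fun a => (h a).1, (h (Classical.arbitrary M)).2⟩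
  | @ex k' n χ h ih' =>
    intro hK ψ h2
    refine Lv.congr (ψ := (χ ⊓ ψ.liftAt 1 n).ex) (Lv.ex (ih' hK (h2.liftAt 1 n)))
      fun M _ _ v xs => ?_
    simp only [BoundedFormula.realize_inf, BoundedFormula.realize_ex, realize_lift]
    constructor
    · rintro ⟨⟨a, ha⟩, h⟩
      exact ⟨a, ha, h⟩
    · rintro ⟨a, ha, h⟩
      exact ⟨⟨a, ha⟩, h⟩

theorem IsLv.inf : ∀ (k : ℕ) {b : Bool} {n : ℕ} {φ ψ : L.BoundedFormula α n},
    IsLv b k φ → IsLv b k ψ → Lv b k (φ ⊓ ψ)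
  | 0, _, _, _, _, h1, h2 => Lv.qf (h1.isQF.inf h2.isQF)
  | k + 1, _, _, _, _, h1, h2 => inf_aux1 (fun h h' => IsLv.inf k h h') h1 rfl h2

/-- PROOF: enough for `IsLv b k φ`, `IsLv b k ψ`. Induction on `k`; for `k + 1` induction on the
first hypothesis (with `ψ` general): `φ.all ⊓ ψ ≡ (φ ⊓ ψ.liftAt 1 n).all` (here nonemptiness is
used), similarly `ex`; in the case `step` induct on the second hypothesis; `step`/`step` is the
induction hypothesis for `k`. -/
theorem Lv.inf {φ ψ : L.BoundedFormula α n} (h1 : Lv b k φ) (h2 : Lv b k ψ) :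
    Lv b k (φ ⊓ ψ) := by
  obtain ⟨χ, h3, h4⟩ := h1
  obtain ⟨χ', h5, h6⟩ := h2
  refine (IsLv.inf k h3 h5).congr fun M _ _ v xs => ?_
  simp only [BoundedFormula.realize_inf]
  exact and_congr (h4 M v xs) (h6 M v xs)

theorem Lv.top : Lv b k (⊤ : L.BoundedFormula α n) :=
  Lv.qf BoundedFormula.IsQF.top

/-- Finite conjunctions: stated as an existence statement. -/
theorem exists_conj (s : Finset (L.Formula α)) (h : ∀ φ ∈ s, Lv b k φ) :
    ∃ χ : L.Formula α, Lv b k χ ∧ ∀ (M : Type) [L.Structure M] [Nonempty M] (v : α → M),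
      χ.Realize v ↔ ∀ φ ∈ s, φ.Realize v := by
  classical
  induction s using Finset.induction_on with
  | empty =>
    refine ⟨⊤, Lv.top, fun M _ _ v => ?_⟩
    simp [Formula.Realize]
  | insert φ s hφ ih =>
    obtain ⟨χ, h1, h2⟩ := ih fun ψ hψ => h ψ (Finset.mem_insert_of_mem hψ)
    refine ⟨φ ⊓ χ, (h φ (Finset.mem_insert_self _ _)).inf h1, fun M _ _ v => ?_⟩
    rw [Formula.realize_inf, h2 M v, Finset.forall_mem_insert]

end Pool.Agent.W_4a2a4a_h31
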