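import Pool.Agent.W_4a2a4a_h31.Sem

/-! # Types as sets of formulas, compactness -/

namespace Pool.Agent.W_4a2a4a_h31

open FirstOrder FirstOrder.Language Cardinal

variable {L : FirstOrder.Language.{0, 0}} {α β : Type} {T : L.Theory}

/-- The complete type of a tuple, as a set of formulas. -/
def tp {M : Type} [L.Structure M] (v : α → M) : Set (L.Formula α) := {φ | φ.Realize v}

@[simp] theorem mem_tp {M : Type} [L.Structure M] (v : α → M) (φ : L.Formula α) :
    φ ∈ tp v ↔ φ.Realize v := Iff.rfl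

/-- `p` is the type of a tuple in a countable model of `T`. -/
def IsTp (T : L.Theory) (p : Set (L.Formula α)) : Prop := ∃ (M : CM T) (v : α → M), tp v = p

/-- `Γ` is realised in a countable model of `T`. -/
def Sat (T : L.Theory) (Γ : Set (L.Formula α)) : Prop :=
  ∃ (M : CM T) (v : α → M), ∀ φ ∈ Γ, φ.Realize v

theorem Sat.mono {Γ Δ : Set (L.Formula α)} (h : Sat T Δ) (hs : Γ ⊆ Δ) : Sat T Γ := by
  obtain ⟨M, v, hv⟩ := h
  exact ⟨M, v, fun φ hφ => hv φ (hs hφ)⟩

theorem sat_iff_exists_isTp {Γ : Set (L.Formula α)} :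
    Sat T Γ ↔ ∃ p : Set (L.Formula α), IsTp T p ∧ Γ ⊆ p := by
  constructor
  · rintro ⟨M, v, hv⟩
    exact ⟨tp v, ⟨M, v, rfl⟩, fun φ hφ => hv φ hφ⟩
  · rintro ⟨p, ⟨M, v, rfl⟩, hp⟩
    exact ⟨M, v, fun φ hφ => hp hφ⟩

theorem IsTp.not_mem {p : Set (L.Formula α)} (h : IsTp T p) (φ : L.Formula α) :
    φ.not ∈ p ↔ φ ∉ p := by
  obtain ⟨M, v, rfl⟩ := h
  simp [tp, Formula.Realize]

/-- Types that are comparable are equal. -/
theorem IsTp.eq_of_subset {p q : Set (L.Formula α)} (hp : IsTp T p) (hq : IsTp T q)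
    (h : p ⊆ q) : p = q := by
  refine Set.Subset.antisymm h fun φ hφ => ?_
  by_contra hn
  exact (hq.not_mem φ).1 (h ((hp.not_mem φ).2 hn)) hφ

/-- Isomorphic models realise the same types. -/
theorem tp_equiv {M N : Type} [L.Structure M] [L.Structure N] (e : M ≃[L] N) (v : α → M) :
    tp (L := L) (e ∘ v) = tp v := by
  ext φ
  exact StrongHomClass.realize_formula e φ

theorem exists_countable_es (hL : L.card ≤ ℵ₀) (M : Type) [L.Structure M] [Nonempty M]
    (s : Set M) (hs : s.Countable) :
    ∃ S : L.ElementarySubstructure M, s ⊆ S ∧ Countable S := by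
  rcases le_or_gt ℵ₀ #M with h | h
  · obtain ⟨S, h1, h2⟩ := exists_elementarySubstructure_card_eq (L := L) s (ℵ₀ : Cardinal.{0}) le_rfl
      (by simpa using hs.le_aleph0) (by simpa using hL) (by simpa using h)
    refine ⟨S, h1, ?_⟩
    rw [← mk_le_aleph0_iff]
    simpa using h2.le
  · have : Countable M := mk_le_aleph0_iff.1 h.le
    exact ⟨⊤, fun _ _ => trivial, inferInstance⟩

/-- Downward Löwenheim-Skolem for a tuple. -/
theorem exists_countable_of_model (hL : L.card ≤ ℵ₀) [Countable α] (M : Type) [L.Structure M]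
    [Nonempty M] [M ⊨ T] (v : α → M) :
    ∃ (M' : CM T) (v' : α → M'), ∀ φ : L.Formula α, φ.Realize v' ↔ φ.Realize v := by
  obtain ⟨S, h1, h2⟩ := exists_countable_es hL M (Set.range v) (Set.countable_range v)
  have : Nonempty S := inferInstance
  have : S ⊨ T := inferInstance
  refine ⟨⟨S⟩, fun a => ⟨v a, h1 ⟨a, rfl⟩⟩, fun φ => ?_⟩
  exact (ElementaryEmbedding.map_formula S.subtype φ _).symm

/-- Compactness together with downward Löwenheim-Skolem.
PROOF: the `L[[α]]`-theory `(lhomWithConstants α).onTheory T ∪ equivSentence '' Γ` is finitely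
satisfiable (`isSatisfiable_iff_isFinitelySatisfiable`); take a model, a countable elementary
substructure (`exists_elementarySubstructure_card_eq` or `exists_small_elementarySubstructure`,
`exists_elementaryEmbedding_card_eq`; the language `L[[α]]` has `card ≤ ℵ₀`), its `L`-reduct and
the values of the constants; `Formula.realize_equivSentence`. -/
theorem sat_of_fin (hL : L.card ≤ ℵ₀) [Countable α] {Γ : Set (L.Formula α)}
    (h : ∀ Γ₀ : Finset (L.Formula α), (Γ₀ : Set (L.Formula α)) ⊆ Γ →
      Sat T (Γ₀ : Set (L.Formula α))) : Sat T Γ := by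
  classical
  have hs : ((L.lhomWithConstants α).onTheory T ∪ Formula.equivSentence '' Γ).IsSatisfiable := by
    rw [Theory.isSatisfiable_iff_isFinitelySatisfiable]
    intro T0 hT0
    obtain ⟨M, v, hv⟩ := h ((T0.filter fun σ => σ ∈ Formula.equivSentence '' Γ).image
        Formula.equivSentence.symm) (by
      intro φ hφ
      obtain ⟨σ, hσ, rfl⟩ := Finset.mem_image.1 (Finset.mem_coe.1 hφ)
      obtain ⟨φ, hφ', rfl⟩ := (Finset.mem_filter.1 hσ).2
      rw [Equiv.symm_apply_apply]
      exact hφ')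
    refine (Theory.CompleteType.isMaximal (T.typeOf v)).1.mono fun σ hσ => ?_
    rcases hT0 hσ with h1 | ⟨φ, hφ, rfl⟩
    · exact (T.typeOf v).subset h1
    · refine Theory.CompleteType.formula_mem_typeOf.2 (hv φ ?_)
      rw [Finset.mem_coe, Finset.mem_image]
      exact ⟨Formula.equivSentence φ, Finset.mem_filter.2 ⟨hσ, φ, hφ, rfl⟩, by simp⟩
  obtain ⟨p, hp⟩ : {p : T.CompleteType α | Formula.equivSentence '' Γ ⊆ (p : L[[α]].Theory)}.Nonempty := by
    rw [Set.nonempty_iff_ne_empty]
    intro h0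
    exact (Theory.CompleteType.setOfPred_subset_eq_empty_iff _).1 h0 hs
  obtain ⟨M, v, hv⟩ := Theory.exists_modelType_is_realized_in T p
  obtain ⟨M', v', h'⟩ := exists_countable_of_model (T := T) hL M v
  refine ⟨M', v', fun φ hφ => (h' φ).2 ?_⟩
  have h1 : Formula.equivSentence φ ∈ T.typeOf v := by
    rw [hv]
    exact hp ⟨φ, hφ, rfl⟩
  exact Theory.CompleteType.formula_mem_typeOf.1 h1

/-- The set of formulas over a countable set of variables is countable. -/
theorem countable_formula (hL : L.card ≤ ℵ₀) [Countable α] : Countable (L.Formula α) := by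
  have h1 : #(Σ n, L.BoundedFormula α n) ≤ ℵ₀ := by
    refine BoundedFormula.card_le.trans ?_
    simp only [lift_id, max_le_iff, le_refl, true_and]
    exact add_le_aleph0.2 ⟨mk_le_aleph0, hL⟩
  have : Countable (Σ n, L.BoundedFormula α n) := mk_le_aleph0_iff.1 h1
  exact Function.Injective.countable (f := fun φ : L.Formula α =>
    (⟨0, φ⟩ : Σ n, L.BoundedFormula α n)) (fun φ ψ h => by simpa using h)

end Pool.Agent.W_4a2a4a_h31
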